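import Mathlib

set_option autoImplicit false

namespace Pool.Agent.H756Z.Curl

theorem prim1 {A : Type} [AddCommGroup A] (f : ℤ → A) :
    ∃ F : ℤ → A, F 0 = 0 ∧ ∀ n, F (n + 1) = F n + f n := by
  refine ⟨fun n => ∑ i ∈ Finset.Ico 0 n, f i - ∑ i ∈ Finset.Ico n 0, f i, by simp, fun n => ?_⟩
  beta_reduce
  rcases le_or_gt 0 n with h | h
  · rw [Finset.Ico_eq_empty_of_le h, Finset.Ico_eq_empty_of_le (by omega : (0 : ℤ) ≤ n + 1),
      ← Finset.insert_Ico_right_eq_Ico_add_one h, Finset.sum_insert (by simp)]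
    simp only [Finset.sum_empty]
    abel
  · rw [Finset.Ico_eq_empty_of_le h.le, Finset.Ico_eq_empty_of_le (by omega : n + 1 ≤ (0 : ℤ)),
      ← Finset.insert_Ico_add_one_left_eq_Ico h, Finset.sum_insert (by simp)]
    simp only [Finset.sum_empty]
    abel

theorem prim2 {A : Type} [CommRing A] (u v : ℤ → ℤ → A)
    (h : ∀ m n, u m n + v (m + 1) n = v m n + u m (n + 1)) :
    ∃ Φ : ℤ → ℤ → A, (∀ m n, Φ (m + 1) n = Φ m n + u m n) ∧
      ∀ m n, Φ m (n + 1) = Φ m n + v m n := by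
  obtain ⟨F, -, hF⟩ := prim1 fun m => u m 0
  choose V hV0 hV using fun m => prim1 (v m)
  refine ⟨fun m n => F m + V m n, fun m n => ?_, fun m n => by simp only [hV]; abel⟩
  induction n using Int.induction_on with
  | zero => simp only [hV0, hF, add_zero]
  | succ n ih =>
    simp only [hV] at ih ⊢
    have := h m n
    linear_combination ih + this
  | pred n ih =>
    have h1 := hV (m + 1) (-(n : ℤ) - 1)
    have h2 := hV m (-(n : ℤ) - 1)
    have h3 := h m (-(n : ℤ) - 1)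
    rw [sub_add_cancel] at h1 h2 h3
    beta_reduce at ih ⊢
    rw [h1, h2] at ih
    linear_combination ih - h3

variable {G : Type} [Group G] {a b : G}

theorem coords (hab : Commute a b) (inj : ∀ m n : ℤ, a ^ m * b ^ n = 1 → m = 0 ∧ n = 0) :
    ∃ (r : G → G) (M N : G → ℤ), (∀ g, g = a ^ M g * b ^ N g * r g) ∧
      (∀ g, r (a * g) = r g ∧ M (a * g) = M g + 1 ∧ N (a * g) = N g) ∧
      (∀ g, r (b * g) = r g ∧ M (b * g) = M g ∧ N (b * g) = N g + 1) := by
  have mul : ∀ m n m' n' : ℤ, a ^ m * b ^ n * (a ^ m' * b ^ n') = a ^ (m + m') * b ^ (n + n') := by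
    intro m n m' n'
    rw [zpow_add, zpow_add, (hab.zpow_zpow m' n).mul_mul_mul_comm]
  have uniq : ∀ (m n m' n' : ℤ) (g : G), a ^ m * b ^ n * g = a ^ m' * b ^ n' * g →
      m = m' ∧ n = n' := by
    intro m n m' n' g h
    have h1 := mul_right_cancel h
    have h2 := mul m n (-m') (-n')
    rw [h1, mul] at h2
    have := inj (m + -m') (n + -n') (by rw [← h2]; simp)
    omega
  let S : Setoid G := ⟨fun g h => ∃ m n : ℤ, g = a ^ m * b ^ n * h,
    fun g => ⟨0, 0, by simp⟩,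
    fun {g h} ⟨m, n, e⟩ => ⟨-m, -n, by rw [e, ← mul_assoc, mul]; simp⟩,
    fun {g h k} ⟨m, n, e⟩ ⟨m', n', e'⟩ => ⟨m + m', n + n', by rw [e, e', ← mul_assoc, mul]⟩⟩
  have h1 : ∀ g, ∃ m n : ℤ, g = a ^ m * b ^ n * (Quotient.mk S g).out := fun g =>
    S.symm (Quotient.mk_out (s := S) g)
  choose M N hMN using h1
  refine ⟨fun g => (Quotient.mk S g).out, M, N, hMN, fun g => ?_, fun g => ?_⟩
  · have e : Quotient.mk S (a * g) = Quotient.mk S g := Quotient.sound ⟨1, 0, by simp⟩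
    refine ⟨by simp only [e], uniq _ _ _ _ (Quotient.mk S g).out ?_⟩
    have h2 := hMN (a * g)
    rw [e] at h2
    rw [← h2, add_comm, zpow_add, zpow_one, mul_assoc, mul_assoc, ← mul_assoc (a ^ M g),
      ← hMN g]
  · have e : Quotient.mk S (b * g) = Quotient.mk S g := Quotient.sound ⟨0, 1, by simp⟩
    refine ⟨by simp only [e], uniq _ _ _ _ (Quotient.mk S g).out ?_⟩
    have h2 := hMN (b * g)
    rw [e] at h2
    have h3 := mul 0 1 (M g) (N g)
    rw [zero_add, add_comm] at h3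
    rw [← h2, ← h3, mul_assoc, ← hMN g]
    simp

theorem exact (hab : Commute a b) (inj : ∀ m n : ℤ, a ^ m * b ^ n = 1 → m = 0 ∧ n = 0)
    {A : Type} [CommRing A] (u v : G → A)
    (h : ∀ g, u g + v (a * g) = v g + u (b * g)) :
    ∃ φ : G → A, (∀ g, φ (a * g) = φ g + u g) ∧ ∀ g, φ (b * g) = φ g + v g := by
  obtain ⟨r, M, N, h0, ha, hb⟩ := coords hab inj
  have h1 := fun w : G => prim2 (fun m n : ℤ => u (a ^ m * b ^ n * w))
    (fun m n : ℤ => v (a ^ m * b ^ n * w)) (fun m n => by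
      have e1 : a ^ (m + 1) * b ^ n * w = a * (a ^ m * b ^ n * w) := by
        rw [add_comm, zpow_add, zpow_one]
        simp only [mul_assoc]
      have e2 : a ^ m * b ^ (n + 1) * w = b * (a ^ m * b ^ n * w) := by
        rw [add_comm, zpow_add, zpow_one, ← mul_assoc, (hab.zpow_left m).eq]
        simp only [mul_assoc]
      simp only [e1, e2, h])
  choose Φ h2 h3 using h1
  refine ⟨fun g => Φ (r g) (M g) (N g), fun g => ?_, fun g => ?_⟩
  · simp only [(ha g).1, (ha g).2.1, (ha g).2.2, h2, ← h0 g]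
  · simp only [(hb g).1, (hb g).2.1, (hb g).2.2, h3, ← h0 g]

variable (a b) in
/-- the subshift -/
def X : Set (G → ZMod 2 × ZMod 2) :=
  {x | ∀ g, (x g).1 + (x (a * g)).2 = (x g).2 + (x (b * g)).1 + 1}

theorem X_nonempty (hab : Commute a b) (inj : ∀ m n : ℤ, a ^ m * b ^ n = 1 → m = 0 ∧ n = 0) :
    (X a b).Nonempty := by
  obtain ⟨r, M, N, -, ha, -⟩ := coords hab inj
  exact ⟨fun g => (0, (M g : ZMod 2)), fun g => by simp [(ha g).2.1]⟩

theorem X_sft : ∃ (S : Finset G) (P : Set (S → ZMod 2 × ZMod 2)),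
    X a b = {x | ∀ g : G, (fun s : S => x (s.1 * g)) ∈ P} := by
  classical
  refine ⟨{1, a, b}, {p | (p ⟨1, by simp⟩).1 + (p ⟨a, by simp⟩).2 =
    (p ⟨1, by simp⟩).2 + (p ⟨b, by simp⟩).1 + 1}, ?_⟩
  ext x
  simp [X]

theorem X_si (hab : Commute a b) (inj : ∀ m n : ℤ, a ^ m * b ^ n = 1 → m = 0 ∧ n = 0) :
    ∃ Δ : Finset G, ∀ Ω₁ Ω₂ : Set G, (∀ d ∈ Δ, ∀ w ∈ Ω₁, d * w ∉ Ω₂) →
      ∀ x₁ ∈ X a b, ∀ x₂ ∈ X a b, ∃ z ∈ X a b,
        (∀ w ∈ Ω₁, z w = x₁ w) ∧ (∀ w ∈ Ω₂, z w = x₂ w) := by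
  classical
  let S : Finset G := {1, a, b}
  refine ⟨(S ×ˢ S).image fun p => p.1⁻¹ * p.2, fun Ω₁ Ω₂ hΩ x₁ h₁ x₂ h₂ => ?_⟩
  obtain ⟨φ, h3, h4⟩ := exact hab inj (fun g => (x₂ g).1 - (x₁ g).1)
    (fun g => (x₂ g).2 - (x₁ g).2) (fun g => by linear_combination h₂ g - h₁ g)
  let ψ : G → ZMod 2 := fun g => if ∃ s ∈ S, ∃ w ∈ Ω₂, g = s * w then φ g else 0
  have p1 : ∀ s ∈ S, ∀ w ∈ Ω₁, ψ (s * w) = 0 := by
    intro s hs w hw
    refine if_neg ?_
    rintro ⟨s', hs', w', hw', e⟩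
    refine hΩ (s'⁻¹ * s) (Finset.mem_image.2 ⟨(s', s), Finset.mem_product.2 ⟨hs', hs⟩, rfl⟩)
      w hw ?_
    rwa [mul_assoc, e, inv_mul_cancel_left]
  have p2 : ∀ s ∈ S, ∀ w ∈ Ω₂, ψ (s * w) = φ (s * w) := fun s hs w hw =>
    if_pos ⟨s, hs, w, hw, rfl⟩
  refine ⟨fun g => ((x₁ g).1 + (ψ (a * g) - ψ g), (x₁ g).2 + (ψ (b * g) - ψ g)), fun g => ?_,
    fun w hw => ?_, fun w hw => ?_⟩
  · have e : b * (a * g) = a * (b * g) := by rw [← mul_assoc, ← hab.eq, mul_assoc]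
    simp only [e]
    linear_combination h₁ g
  · have q1 := p1 1 (by simp [S]) w hw
    rw [one_mul] at q1
    simp [q1, p1 a (by simp [S]) w hw, p1 b (by simp [S]) w hw]
  · have q1 := p2 1 (by simp [S]) w hw
    rw [one_mul] at q1
    simp [q1, p2 a (by simp [S]) w hw, p2 b (by simp [S]) w hw, h3, h4]

theorem root {t : G} (h : t * a * t⁻¹ = a ^ 2) (j : ℕ) : ∃ c : G, c ^ 2 ^ j = a := by
  induction j with
  | zero => exact ⟨a, by simp⟩
  | succ j ih =>
    obtain ⟨c, hc⟩ := ih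
    refine ⟨t⁻¹ * c * t⁻¹⁻¹, ?_⟩
    rw [conj_pow, pow_succ, pow_mul, hc, ← h]
    group

theorem odd_period {A : Type} {y : G → A}
    (hy : (Set.range (fun g : G => fun h : G => y (h * g))).Finite)
    (ha : ∀ j : ℕ, ∃ c : G, c ^ 2 ^ j = a) : ∃ k : ℕ, Odd k ∧ ∀ h, y (h * a ^ k) = y h := by
  let _ : MulAction G (G → A) :=
    { smul := fun g f h => f (h * g)
      one_smul := fun f => funext fun h => congrArg f (mul_one h)
      mul_smul := fun g g' f => funext fun h => congrArg f (mul_assoc h g g').symm }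
  have h1 : (MulAction.stabilizer G y).index ≠ 0 := by
    rw [MulAction.index_stabilizer]
    exact Set.ncard_ne_zero_of_mem (MulAction.mem_orbit_self y) hy
  obtain ⟨j, k, hk, e⟩ := Nat.exists_eq_two_pow_mul_odd
    (Nat.factorial_ne_zero (MulAction.stabilizer G y).index)
  obtain ⟨c, hc⟩ := ha j
  have h2 := Subgroup.pow_mem_of_index_ne_zero_of_dvd h1 c
    (fun m hm hm' => Nat.dvd_factorial hm hm')
  rw [e, pow_mul, hc] at h2
  exact ⟨k, hk, fun h => congrFun h2 h⟩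

theorem tele {A : Type} [AddCommGroup A] (f : ℕ → A) (k : ℕ) (h : f k = f 0) :
    ∑ i ∈ Finset.range k, f (i + 1) = ∑ i ∈ Finset.range k, f i := by
  have h1 := Finset.sum_range_succ f k
  rw [Finset.sum_range_succ', h] at h1
  exact add_right_cancel h1

theorem no_periodic (hab : Commute a b) (ha : ∀ j : ℕ, ∃ c : G, c ^ 2 ^ j = a)
    (hb : ∀ j : ℕ, ∃ c : G, c ^ 2 ^ j = b) {y : G → ZMod 2 × ZMod 2} (hX : y ∈ X a b) :
    ¬ (Set.range (fun g : G => fun h : G => y (h * g))).Finite := by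
  intro hy
  obtain ⟨k, hk, h1⟩ := odd_period hy ha
  obtain ⟨l, hl, h2⟩ := odd_period hy hb
  have key : ∀ m n : ℕ, (y (a ^ m * b ^ n)).1 + (y (a ^ (m + 1) * b ^ n)).2 =
      (y (a ^ m * b ^ n)).2 + (y (a ^ m * b ^ (n + 1))).1 + 1 := by
    intro m n
    have := hX (a ^ m * b ^ n)
    rwa [← mul_assoc, ← pow_succ', ← mul_assoc, ← (hab.pow_left m).eq, mul_assoc,
      ← pow_succ'] at this
  have s1 : ∀ m : ℕ, ∑ n ∈ Finset.range l, (y (a ^ (m + 1) * b ^ n)).2 =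
      ∑ n ∈ Finset.range l, (y (a ^ m * b ^ n)).2 + 1 := by
    intro m
    have e1 := Finset.sum_congr (rfl : Finset.range l = _) fun n _ => key m n
    rw [Finset.sum_add_distrib, Finset.sum_add_distrib, Finset.sum_add_distrib,
      tele (fun n => (y (a ^ m * b ^ n)).1) l (by simp [h2])] at e1
    have e2 : ∑ _n ∈ Finset.range l, (1 : ZMod 2) = 1 := by
      simpa using (ZMod.natCast_eq_one_iff_odd).2 hl
    rw [e2] at e1
    linear_combination e1
  have s2 := Finset.sum_congr (rfl : Finset.range k = _) fun m _ => s1 m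
  rw [Finset.sum_add_distrib, tele (fun m => ∑ n ∈ Finset.range l, (y (a ^ m * b ^ n)).2) k
    (Finset.sum_congr rfl fun n _ => by simp [(hab.pow_pow k n).eq, h1])] at s2
  have e2 : ∑ _n ∈ Finset.range k, (1 : ZMod 2) = 1 := by
    simpa using (ZMod.natCast_eq_one_iff_odd).2 hk
  rw [e2] at s2
  exact one_ne_zero (left_eq_add.1 s2)

end Pool.Agent.H756Z.Curl
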