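import Mathlib
import Pool.Agent.H756Z.CurlA

set_option autoImplicit false

namespace Pool.Agent.H756Z.Curl

/-- finite sets of odd order -/
abbrev Z (k : ℕ) : Type := ZMod (2 * k + 1) × ZMod (2 * k + 1)

/-- a product of finite groups -/
abbrev Γ : Type := (k : ℕ) → Equiv.Perm (Z k)

/-- first translation -/
def ta : Γ := fun _ => Equiv.addLeft (1, 0)

/-- second translation -/
def tb : Γ := fun _ => Equiv.addLeft (0, 1)

theorem two_inv (k : ℕ) : (2 : ZMod (2 * k + 1)) * (k + 1) = 1 := by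
  have : ((2 * k + 1 : ℕ) : ZMod (2 * k + 1)) = 0 := ZMod.natCast_self _
  push_cast at this
  linear_combination this

/-- doubling -/
def tt : Γ := fun k =>
  { toFun := fun p => (2 * p.1, 2 * p.2)
    invFun := fun p => ((k + 1) * p.1, (k + 1) * p.2)
    left_inv := fun p => by
      ext
      · linear_combination p.1 * two_inv k
      · linear_combination p.2 * two_inv k
    right_inv := fun p => by
      ext
      · linear_combination p.1 * two_inv k
      · linear_combination p.2 * two_inv k }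

theorem comm_ab : Commute ta tb := by
  funext k
  ext p <;> simp [ta, tb]

theorem conj_a : tt * ta = ta ^ 2 * tt := by
  funext k
  ext p
  · simp [ta, tt, sq]
    ring
  · simp [ta, tt, sq]

theorem conj_b : tt * tb = tb ^ 2 * tt := by
  funext k
  ext p
  · simp [tb, tt, sq]
  · simp [tb, tt, sq]
    ring

theorem zpow_add' {A : Type} [AddCommGroup A] (v : A) (m : ℤ) (p : A) :
    (Equiv.addLeft v ^ m) p = m • v + p := by
  induction m using Int.induction_on generalizing p with
  | zero => simp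
  | succ n ih =>
    rw [zpow_add_one, Equiv.Perm.mul_apply, ih, add_zsmul, one_zsmul, add_assoc]
    rfl
  | pred n ih =>
    rw [zpow_sub_one, Equiv.Perm.mul_apply, ih, sub_zsmul, one_zsmul, add_assoc]
    rfl

theorem inj_ab (m n : ℤ) (h : ta ^ m * tb ^ n = 1) : m = 0 ∧ n = 0 := by
  have h1 := congrArg (fun g : Γ => g (m.natAbs + n.natAbs) 0) h
  simp only [ta, tb, Pi.mul_apply, Pi.pow_apply, Equiv.Perm.mul_apply, zpow_add',
    Pi.one_apply, Equiv.Perm.coe_one, id, Prod.ext_iff] at h1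
  simp only [Prod.smul_mk, smul_zero, Prod.fst_add, Prod.snd_add, Prod.fst_zero, Prod.snd_zero,
    add_zero, zero_add, zsmul_eq_mul, mul_one, mul_zero, ZMod.intCast_zmod_eq_zero_iff_dvd] at h1
  exact ⟨Int.eq_zero_of_dvd_of_natAbs_lt_natAbs h1.1 (by omega),
    Int.eq_zero_of_dvd_of_natAbs_lt_natAbs h1.2 (by omega)⟩

/-- the group generated by the two translations and the doubling map -/
def G0 : Subgroup Γ := Subgroup.closure {ta, tb, tt}

theorem main : ∃ (G : Type) (_ : Group G), Group.FG G ∧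
    (∀ g : G, g ≠ 1 → ∃ H : Subgroup G, H.FiniteIndex ∧ g ∉ H) ∧
    ∃ a b : G, Commute a b ∧ (∀ m n : ℤ, a ^ m * b ^ n = 1 → m = 0 ∧ n = 0) ∧
      (∀ j : ℕ, ∃ c : G, c ^ 2 ^ j = a) ∧ ∀ j : ℕ, ∃ c : G, c ^ 2 ^ j = b := by
  let a : G0 := ⟨ta, Subgroup.subset_closure (by simp)⟩
  let b : G0 := ⟨tb, Subgroup.subset_closure (by simp)⟩
  let t : G0 := ⟨tt, Subgroup.subset_closure (by simp)⟩
  refine ⟨G0, inferInstance, Group.closure_finite_fg _, fun g hg => ?_, a, b,
    Subtype.ext comm_ab, fun m n h => inj_ab m n (congrArg Subtype.val h),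
    root (t := t) (mul_inv_eq_of_eq_mul (Subtype.ext conj_a)),
    root (t := t) (mul_inv_eq_of_eq_mul (Subtype.ext conj_b))⟩
  obtain ⟨k, hk⟩ := Function.ne_iff.1 (fun h => hg (Subtype.ext h) : g.1 ≠ 1)
  exact ⟨((Pi.evalMonoidHom (fun k => Equiv.Perm (Z k)) k).comp G0.subtype).ker,
    Subgroup.finiteIndex_ker _, hk⟩

end Pool.Agent.H756Z.Curl
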