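import Mathlib

set_option autoImplicit false

open scoped BoundedContinuousFunction

namespace Pool.Agent.H756Z.Ela

/-- The left translate `(ℓ_s f)(t) = f (s t)` of a bounded continuous complex function. -/
noncomputable def lTrans {S : Type} [Semigroup S] [TopologicalSpace S] [SeparatelyContinuousMul S]
    (s : S) (f : S →ᵇ ℂ) : S →ᵇ ℂ :=
  f.compContinuous ⟨fun t => s * t, SeparatelyContinuousMul.continuous_const_mul⟩

/-- `f ∈ LUC(S)`: the map `s ↦ ℓ_s f` is norm continuous. -/
def IsLUC {S : Type} [Semigroup S] [TopologicalSpace S] [SeparatelyContinuousMul S]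
    (f : S →ᵇ ℂ) : Prop :=
  Continuous fun s : S => lTrans s f

/-- `m` is a mean on `LUC(S)`: it is complex linear on `LUC(S)`, `m 1 = 1` and
`|m f| ≤ ‖f‖` on `LUC(S)`, that is `m 1 = ‖m‖ = 1`. Values of `m` off `LUC(S)` play no role. -/
def IsMean {S : Type} [Semigroup S] [TopologicalSpace S] [SeparatelyContinuousMul S]
    (m : (S →ᵇ ℂ) → ℂ) : Prop :=
  (∀ f g, IsLUC f → IsLUC g → m (f + g) = m f + m g) ∧
    (∀ (c : ℂ) f, IsLUC f → m (c • f) = c * m f) ∧ m 1 = 1 ∧ ∀ f, IsLUC f → ‖m f‖ ≤ ‖f‖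

/-- `S` is extremely left amenable: `LUC(S)` carries a multiplicative left invariant mean. -/
def ExtremelyLeftAmenable (S : Type) [Semigroup S] [TopologicalSpace S]
    [SeparatelyContinuousMul S] : Prop :=
  ∃ m : (S →ᵇ ℂ) → ℂ, IsMean m ∧ (∀ (s : S) f, IsLUC f → m (lTrans s f) = m f) ∧
    ∀ f g, IsLUC f → IsLUC g → m (f * g) = m f * m g

/-- The weak topology of the normed space `E`. -/
@[reducible] noncomputable def weakE (𝕜 : Type) [RCLike 𝕜] (E : Type) [NormedAddCommGroup E]
    [NormedSpace 𝕜 E] : TopologicalSpace E :=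
  (inferInstance : TopologicalSpace (WeakSpace 𝕜 E))

/-- The weak topology of `E`, restricted to the subset `C`. -/
@[reducible] noncomputable def weakTop (𝕜 : Type) [RCLike 𝕜] {E : Type} [NormedAddCommGroup E]
    [NormedSpace 𝕜 E] (C : Set E) : TopologicalSpace C :=
  TopologicalSpace.induced (fun x : C => x.1) (weakE 𝕜 E)

end Pool.Agent.H756Z.Ela
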