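import Mathlib
import Pool.Agent.H756Z.ElaDefs

set_option autoImplicit false

open Set Filter Topology
open scoped BoundedContinuousFunction

namespace Pool.Agent.H756Z.Ela

variable (𝕜 : Type) [RCLike 𝕜]

abbrev H : Type := lp (fun _ : ℕ => 𝕜) 2

noncomputable def e (n : ℕ) : H 𝕜 := lp.single 2 n (1 : 𝕜)

def C : Set (H 𝕜) := insert 0 (range (e 𝕜))

noncomputable def co (n : ℕ) : H 𝕜 →L[𝕜] 𝕜 := innerSL 𝕜 (e 𝕜 n)

theorem co_apply (n : ℕ) (x : H 𝕜) : co 𝕜 n x = x n := by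
  simp [co, e, lp.inner_single_left]

theorem e_apply (n m : ℕ) : e 𝕜 n m = if m = n then 1 else 0 := by
  simp [e, lp.single_apply, Pi.single_apply]

theorem norm_e (n : ℕ) : ‖e 𝕜 n‖ = 1 := by
  simp [e]

theorem weak_tendsto {α : Type*} {l : Filter α} {f : α → H 𝕜} {x : H 𝕜}
    (h : ∀ φ : H 𝕜 →L[𝕜] 𝕜, Tendsto (fun a => φ (f a)) l (𝓝 (φ x))) :
    Tendsto (fun a => toWeakSpace 𝕜 (H 𝕜) (f a)) l (𝓝 (toWeakSpace 𝕜 (H 𝕜) x)) := by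
  refine (WeakBilin.tendsto_iff_forall_eval_tendsto (topDualPairing 𝕜 (H 𝕜)).flip ?_).2 h
  intro a b hab
  by_contra hne
  obtain ⟨f, hf⟩ := SeparatingDual.exists_separating_of_ne (R := 𝕜) hne
  exact hf (DFunLike.congr_fun hab f)

theorem coord_tendsto (y : H 𝕜) : Tendsto (fun n => y n) atTop (𝓝 0) := by
  have h1 : Summable fun n => ‖y n‖ ^ (2 : ℝ) := by
    have := (lp.memℓp y).summable (by simp)
    simpa using this
  have h2 := h1.tendsto_atTop_zero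
  rw [tendsto_zero_iff_norm_tendsto_zero]
  have h3 := h2.sqrt
  simp only [Real.rpow_two, Real.sqrt_zero] at h3
  refine h3.congr fun n => Real.sqrt_sq (norm_nonneg _)

theorem e_tendsto : Tendsto (fun n => toWeakSpace 𝕜 (H 𝕜) (e 𝕜 n)) atTop
    (𝓝 (toWeakSpace 𝕜 (H 𝕜) 0)) := by
  refine weak_tendsto 𝕜 fun φ => ?_
  obtain ⟨y, rfl⟩ := (InnerProductSpace.toDual 𝕜 (H 𝕜)).surjective φ
  have h := (RCLike.continuous_conj.tendsto 0).comp (coord_tendsto 𝕜 y)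
  simp only [map_zero] at h ⊢
  refine h.congr fun n => ?_
  simp [e, lp.inner_single_right]

theorem compact_C : IsCompact (toWeakSpace 𝕜 (H 𝕜) '' C 𝕜) := by
  have := (e_tendsto 𝕜).isCompact_insert_range
  rw [C, image_insert_eq, ← range_comp]
  exact this

theorem one_le_dist (x y : H 𝕜) (n : ℕ) :
    ‖x n - y n‖ ≤ ‖x - y‖ := by
  have := lp.norm_apply_le_norm (E := fun _ : ℕ => 𝕜) (p := 2) (by simp) (x - y) n
  simpa using this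

theorem norm_le_one {x : H 𝕜} (hx : x ∈ C 𝕜) : ‖x‖ ≤ 1 := by
  rcases hx with rfl | ⟨n, rfl⟩
  · simp
  · exact (norm_e 𝕜 n).le

theorem smul_mem {x p : H 𝕜} (hx : x ∈ C 𝕜) (hp : p ∈ C 𝕜) (n : ℕ) : x n • p ∈ C 𝕜 := by
  rcases hx with rfl | ⟨m, rfl⟩
  · simp [C]
  · rw [e_apply]
    split_ifs
    · simpa using hp
    · simp [C]

/-- the semigroup of weakly continuous nonexpansive self-maps of `C` -/
def Sg : Type := {σ : C 𝕜 → C 𝕜 // @Continuous _ _ (weakTop 𝕜 (C 𝕜)) (weakTop 𝕜 (C 𝕜)) σ ∧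
  ∀ x y, ‖(σ x).1 - (σ y).1‖ ≤ ‖x.1 - y.1‖}

instance : Semigroup (Sg 𝕜) where
  mul s t := ⟨s.1 ∘ t.1, @Continuous.comp _ _ _ (weakTop 𝕜 (C 𝕜)) (weakTop 𝕜 (C 𝕜))
    (weakTop 𝕜 (C 𝕜)) _ _ s.2.1 t.2.1, fun x y => (s.2.2 _ _).trans (t.2.2 x y)⟩
  mul_assoc _ _ _ := rfl

noncomputable instance : TopologicalSpace (Sg 𝕜) :=
  TopologicalSpace.induced (fun s x => toWeakSpace 𝕜 (H 𝕜) (s.1 x).1) inferInstance

theorem cont_iff {α : Type*} [TopologicalSpace α] {f : α → Sg 𝕜} :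
    Continuous f ↔ ∀ x, Continuous fun a => toWeakSpace 𝕜 (H 𝕜) ((f a).1 x).1 := by
  rw [continuous_induced_rng, continuous_pi_iff]
  rfl

theorem cont_ev (x : C 𝕜) : Continuous fun s : Sg 𝕜 => toWeakSpace 𝕜 (H 𝕜) (s.1 x).1 :=
  (cont_iff 𝕜).1 continuous_id x

theorem cont_ev' (x : C 𝕜) : @Continuous _ _ _ (weakTop 𝕜 (C 𝕜)) fun s : Sg 𝕜 => s.1 x :=
  continuous_induced_rng.2 (cont_ev 𝕜 x)

instance : T2Space (Sg 𝕜) := by
  refine Topology.IsEmbedding.t2Space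
    (f := fun (s : Sg 𝕜) x => toWeakSpace 𝕜 (H 𝕜) (s.1 x).1) ⟨⟨rfl⟩, ?_⟩
  intro s t hst
  refine Subtype.ext (funext fun x => Subtype.ext ?_)
  exact (toWeakSpace 𝕜 (H 𝕜)).injective (congrFun hst x)

instance : SeparatelyContinuousMul (Sg 𝕜) where
  continuous_const_mul {a} := by
    refine (cont_iff 𝕜).2 fun x => ?_
    have h1 := @Continuous.comp _ _ _ _ (weakTop 𝕜 (C 𝕜)) (weakTop 𝕜 (C 𝕜)) _ _ a.2.1
      (cont_ev' 𝕜 x)
    exact (continuous_induced_rng (f := fun x : C 𝕜 => toWeakSpace 𝕜 (H 𝕜) x.1)).1 h1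
  continuous_mul_const {a} := (cont_iff 𝕜).2 fun x => cont_ev 𝕜 (a.1 x)

def cst (p : C 𝕜) : Sg 𝕜 :=
  ⟨fun _ => p, @continuous_const _ _ (weakTop 𝕜 (C 𝕜)) (weakTop 𝕜 (C 𝕜)) _, by simp⟩

noncomputable def bump (n : ℕ) (p : C 𝕜) : Sg 𝕜 :=
  ⟨fun x => ⟨x.1 n • p.1, smul_mem 𝕜 x.2 p.2 n⟩, by
    refine continuous_induced_rng.2 ?_
    let _ := weakTop 𝕜 (C 𝕜)
    have h1 : Continuous fun x : C 𝕜 => toWeakSpace 𝕜 (H 𝕜) x.1 := continuous_induced_dom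
    have h2 : Continuous fun x : WeakSpace 𝕜 (H 𝕜) => co 𝕜 n x :=
      WeakBilin.eval_continuous (topDualPairing 𝕜 (H 𝕜)).flip (co 𝕜 n)
    have h3 := (h2.comp h1).smul (continuous_const (y := toWeakSpace 𝕜 (H 𝕜) p.1))
    refine h3.congr fun x => ?_
    change co 𝕜 n x.1 • _ = toWeakSpace 𝕜 (H 𝕜) (x.1 n • p.1)
    rw [co_apply, map_smul], by
    intro x y
    simp only
    rw [← sub_smul, norm_smul]
    have h1 := one_le_dist 𝕜 x.1 y.1 n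
    have h2 := norm_le_one 𝕜 p.2
    have h3 := norm_nonneg (x.1 n - y.1 n)
    nlinarith⟩

noncomputable def z : C 𝕜 := ⟨0, Or.inl rfl⟩

theorem bump_tendsto (p : C 𝕜) : Tendsto (fun n => bump 𝕜 n p) atTop (𝓝 (cst 𝕜 (z 𝕜))) := by
  rw [nhds_induced, tendsto_comap_iff, tendsto_pi_nhds]
  intro x
  refine weak_tendsto 𝕜 (f := fun n => x.1 n • p.1) (x := 0) fun φ => ?_
  have := (coord_tendsto 𝕜 x.1).mul_const (φ p.1)
  simpa using this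

theorem luc_const (f : Sg 𝕜 →ᵇ ℂ) (hf : IsLUC f) (p : C 𝕜) : f (cst 𝕜 p) = f (cst 𝕜 (z 𝕜)) := by
  have h1 := (Continuous.tendsto hf _).comp (bump_tendsto 𝕜 p)
  rw [tendsto_iff_dist_tendsto_zero] at h1
  have h2 : ∀ n, dist (f (cst 𝕜 p)) (f (cst 𝕜 (z 𝕜))) ≤
      dist (lTrans (bump 𝕜 n p) f) (lTrans (cst 𝕜 (z 𝕜)) f) := by
    intro n
    have := BoundedContinuousFunction.dist_coe_le_dist (f := lTrans (bump 𝕜 n p) f)
      (g := lTrans (cst 𝕜 (z 𝕜)) f) (cst 𝕜 ⟨e 𝕜 n, Or.inr ⟨n, rfl⟩⟩)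
    have e1 : bump 𝕜 n p * cst 𝕜 ⟨e 𝕜 n, Or.inr ⟨n, rfl⟩⟩ = cst 𝕜 p := by
      refine Subtype.ext (funext fun x => Subtype.ext ?_)
      change e 𝕜 n n • p.1 = p.1
      simp [e_apply]
    have e2 : lTrans (bump 𝕜 n p) f (cst 𝕜 ⟨e 𝕜 n, Or.inr ⟨n, rfl⟩⟩) = f (cst 𝕜 p) := by
      rw [← e1]
      rfl
    rw [e2] at this
    exact this
  exact dist_le_zero.1 (ge_of_tendsto' h1 h2)

theorem ela : ExtremelyLeftAmenable (Sg 𝕜) :=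
  ⟨fun f => f (cst 𝕜 (z 𝕜)), ⟨fun _ _ _ _ => rfl, fun _ _ _ => rfl, rfl,
    fun f _ => f.norm_coe_le_norm _⟩, fun s f hf => luc_const 𝕜 f hf (s.1 (z 𝕜)),
    fun _ _ _ _ => rfl⟩

theorem compact_C' : @IsCompact (H 𝕜) (weakE 𝕜 (H 𝕜)) (C 𝕜) := by
  have := compact_C 𝕜
  have e1 : toWeakSpace 𝕜 (H 𝕜) '' C 𝕜 = C 𝕜 := image_id _
  rw [e1] at this
  exact this

theorem main : ¬ ∀ (S : Type) [Semigroup S] [TopologicalSpace S] [T2Space S]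
      [SeparatelyContinuousMul S], ExtremelyLeftAmenable S →
      ∀ (E : Type) [NormedAddCommGroup E] [NormedSpace 𝕜 E] [CompleteSpace E] (C : Set E),
        @IsClosed E (weakE 𝕜 E) C →
        ∀ T : S → C → C, (∀ s t x, T (s * t) x = T s (T t x)) →
          (∀ s x y, ‖(T s x).1 - (T s y).1‖ ≤ ‖x.1 - y.1‖) →
          (∀ x, @Continuous S C _ (weakTop 𝕜 C) fun s => T s x) →
          (∀ s, @Continuous C C (weakTop 𝕜 C) (weakTop 𝕜 C) (T s)) →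
          (∃ c : C, @IsCompact E (weakE 𝕜 E)
            (@closure E (weakE 𝕜 E) (Set.range fun s => (T s c).1))) →
          ∃ z : C, ∀ s, T s z = z := by
  intro h
  have hc : @IsClosed (H 𝕜) (weakE 𝕜 (H 𝕜)) (C 𝕜) :=
    IsCompact.isClosed (X := WeakSpace 𝕜 (H 𝕜)) (compact_C' 𝕜)
  obtain ⟨w, hw⟩ := h (Sg 𝕜) (ela 𝕜) (H 𝕜) (C 𝕜) hc (fun s => s.1)
    (fun _ _ _ => rfl) (fun s => s.2.2) (cont_ev' 𝕜) (fun s => s.2.1)
    ⟨z 𝕜, IsCompact.of_isClosed_subset (X := WeakSpace 𝕜 (H 𝕜)) (compact_C' 𝕜) isClosed_closure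
      (closure_minimal (X := WeakSpace 𝕜 (H 𝕜))
        (by rintro _ ⟨s, rfl⟩; exact (s.1 (z 𝕜)).2) hc)⟩
  have h1 : z 𝕜 = w := hw (cst 𝕜 (z 𝕜))
  have h2 : (⟨e 𝕜 0, Or.inr ⟨0, rfl⟩⟩ : C 𝕜) = w := hw (cst 𝕜 ⟨e 𝕜 0, Or.inr ⟨0, rfl⟩⟩)
  have h3 : (0 : H 𝕜) = e 𝕜 0 := congrArg Subtype.val (h1.trans h2.symm)
  have h4 := norm_e 𝕜 0
  rw [← h3] at h4
  simp at h4

end Pool.Agent.H756Z.Ela
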