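import Mathlib

set_option autoImplicit false

open Set Filter Topology

namespace Pool.Agent.H756Z.Exp

variable {X : Type*} [NormedAddCommGroup X] [NormedSpace ℝ X]

/-- joining two compact convex sets -/
theorem exists_join {E : Type*} [AddCommGroup E] [Module ℝ E] [TopologicalSpace E]
    [IsTopologicalAddGroup E] [ContinuousSMul ℝ E] {P Q : Set E}
    (hP : IsCompact P) (hQ : IsCompact Q) (cP : Convex ℝ P) (cQ : Convex ℝ Q) :
    ∃ R : Set E, IsCompact R ∧ Convex ℝ R ∧ P ⊆ R ∧ Q ⊆ R ∧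
      ∀ H : Set E, Convex ℝ H → P ⊆ H → Q ⊆ H → R ⊆ H := by
  rcases P.eq_empty_or_nonempty with rfl | hPn
  · exact ⟨Q, hQ, cQ, empty_subset _, Subset.rfl, fun H _ _ h => h⟩
  rcases Q.eq_empty_or_nonempty with rfl | hQn
  · exact ⟨P, hP, cP, Subset.rfl, empty_subset _, fun H _ h _ => h⟩
  refine ⟨convexJoin ℝ P Q, ?_, cP.convexJoin cQ, subset_convexJoin_left hQn,
    subset_convexJoin_right hPn, fun H cH h1 h2 => convexJoin_subset h1 h2 cH⟩
  have : convexJoin ℝ P Q = (fun t : ℝ × E × E => (1 - t.1) • t.2.1 + t.1 • t.2.2) ''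
      (Icc (0 : ℝ) 1 ×ˢ P ×ˢ Q) := by
    ext x
    simp only [mem_convexJoin, segment_eq_image, mem_image, mem_prod]
    constructor
    · rintro ⟨a, ha, b, hb, t, ht, rfl⟩
      exact ⟨(t, a, b), ⟨ht, ha, hb⟩, rfl⟩
    · rintro ⟨⟨t, a, b⟩, ⟨ht, ha, hb⟩, rfl⟩
      exact ⟨a, ha, b, hb, t, ht, rfl⟩
  rw [this]
  refine (isCompact_Icc.prod (hP.prod hQ)).image ?_
  fun_prop

theorem cont_eval (y : X) : Continuous fun η : WeakDual ℝ X => η y :=
  WeakDual.eval_continuous y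

/-- the minimax step -/
theorem minimax_step (z : WeakDual ℝ X →ₗ[ℝ] ℝ) (M : ℝ) (hM : 0 ≤ M)
    (hz : ∀ ζ : WeakDual ℝ X, ∀ ε > 0, ∃ y : X, ‖y‖ ≤ M ∧ ζ y < z ζ + ε)
    (R : Set (WeakDual ℝ X × ℝ)) (hR : IsCompact R) (cR : Convex ℝ R) (s : X) (L : ℝ)
    (h : ∀ p ∈ R, p.1 s + L * z p.1 + p.2 ≤ 0) (ε : ℝ) (hε : 0 < ε) :
    ∃ y : X, ‖y‖ ≤ M ∧ ∀ p ∈ R, p.1 s + L * p.1 y + p.2 < ε := by
  rcases R.eq_empty_or_nonempty with rfl | hRn
  · exact ⟨0, by simpa using hM, by simp⟩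
  let Y : Set X := Metric.closedBall 0 M
  let f : WeakDual ℝ X × ℝ → X → ℝ := fun p y => -(p.1 s + L * p.1 y + p.2)
  have hcont : ∀ y : X, Continuous fun p : WeakDual ℝ X × ℝ => f p y := by
    intro y
    have h1 := (cont_eval s).comp (continuous_fst (X := WeakDual ℝ X) (Y := ℝ))
    have h2 := (cont_eval y).comp (continuous_fst (X := WeakDual ℝ X) (Y := ℝ))
    exact ((h1.add (continuous_const.mul h2)).add continuous_snd).neg
  have hcont' : ∀ p : WeakDual ℝ X × ℝ, Continuous fun y : X => f p y := by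
    intro p
    have h2 : Continuous fun y : X => p.1 y := (WeakDual.toStrongDual p.1).continuous
    exact ((continuous_const.add (continuous_const.mul h2)).add continuous_const).neg
  have hcover : R ⊆ ⋃ y : Y, {p | -ε < f p y} := by
    intro p hp
    obtain ⟨y, hy, hy'⟩ := hz (L • p.1) ε hε
    refine mem_iUnion.2 ⟨⟨y, by simpa [Y] using hy⟩, ?_⟩
    have h1 := h p hp
    have h2 : (L • p.1) y = L * p.1 y := rfl
    have h3 : z (L • p.1) = L * z p.1 := by simp
    simp only [mem_ofPred_eq, f]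
    linarith
  obtain ⟨t, ht⟩ := hR.elim_finite_subcover _
    (fun y : Y => isOpen_lt continuous_const (hcont y)) hcover
  have key := Sion.exists_lt_iInf_of_lt_iInf_of_finite (X := R) (Y := Y) (f := f) hRn hR
    (fun y _ => (hcont y).lowerSemicontinuous.lowerSemicontinuousOn _)
    (fun y _ => ?_) (convex_closedBall 0 M)
    (fun p _ => (hcont' p).upperSemicontinuous.upperSemicontinuousOn _)
    (fun p _ => ?_) cR (s := Subtype.val '' (t : Set Y)) (toFinite _)
    (Subtype.coe_image_subset Y _) (t := -ε) ?_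
  · obtain ⟨y, hy, hy'⟩ := key
    refine ⟨y, by simpa [Y] using hy, fun p hp => ?_⟩
    have := hy' p hp
    simp only [f] at this
    linarith
  · refine ConvexOn.quasiconvexOn ⟨cR, ?_⟩
    intro p _ q _ a b _ _ _
    have e1 : (a • p + b • q).1 s = a * p.1 s + b * q.1 s := rfl
    have e2 : (a • p + b • q).1 y = a * p.1 y + b * q.1 y := rfl
    have e3 : (a • p + b • q).2 = a * p.2 + b * q.2 := rfl
    simp only [f, e1, e2, e3, smul_eq_mul]
    apply le_of_eq
    ring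
  · refine ConcaveOn.quasiconcaveOn ⟨convex_closedBall 0 M, ?_⟩
    intro y _ y' _ a b _ _ hab
    simp only [f, map_add, map_smul, smul_eq_mul]
    apply le_of_eq
    have : b = 1 - a := by linarith
    subst this
    ring
  · intro p hp
    obtain ⟨y, hy, hy'⟩ := mem_iUnion₂.1 (ht hp)
    exact ⟨y, ⟨y, hy, rfl⟩, hy'⟩

end Pool.Agent.H756Z.Exp
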