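import Mathlib
import Pool.Agent.H756Z.ExpA

set_option autoImplicit false

open Set Filter Topology

namespace Pool.Agent.H756Z.Exp

variable {X : Type*} [NormedAddCommGroup X] [NormedSpace ℝ X]

/-- the invariant of the construction -/
structure Inv (z : WeakDual ℝ X →ₗ[ℝ] ℝ) (K : Set (WeakDual ℝ X)) (a : ℝ) (L : ℝ) (s : X)
    (P : Set (WeakDual ℝ X × ℝ)) : Prop where
  cpt : IsCompact P
  cvx : Convex ℝ P
  slack : ∃ ε > 0, ∀ p ∈ P, p.1 s + L * z p.1 + p.2 ≤ -ε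
  high : ∃ η₀ ∈ K, ∃ ε > 0, ∀ η ∈ K, η s + L * a ≤ η₀ s + L * z η₀ - ε

/-- `P` records that the set `B` is beaten by a fixed point of `K` -/
def Beaten (K B : Set (WeakDual ℝ X)) (P : Set (WeakDual ℝ X × ℝ)) : Prop :=
  ∃ η₀ ∈ K, ∃ c > 0, ∀ η ∈ B, (η - η₀, c) ∈ P

theorem convex_half (z : WeakDual ℝ X →ₗ[ℝ] ℝ) (s : X) (L e : ℝ) :
    Convex ℝ {p : WeakDual ℝ X × ℝ | p.1 s + L * z p.1 + p.2 ≤ e} := by
  intro p hp q hq a b ha hb hab
  have e1 : (a • p + b • q).1 s = a * p.1 s + b * q.1 s := rfl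
  have e2 : z (a • p + b • q).1 = a * z p.1 + b * z q.1 := by simp
  have e3 : (a • p + b • q).2 = a * p.2 + b * q.2 := rfl
  simp only [mem_ofPred_eq] at hp hq ⊢
  rw [e1, e2, e3]
  have h1 := mul_le_mul_of_nonneg_left hp ha
  have h2 := mul_le_mul_of_nonneg_left hq hb
  have : a * e + b * e = e := by rw [← add_mul, hab, one_mul]
  nlinarith

theorem shift_compact {B : Set (WeakDual ℝ X)} (hB : IsCompact B) (η₀ : WeakDual ℝ X) (c : ℝ) :
    IsCompact ((fun η => (η - η₀, c)) '' B) :=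
  hB.image (by fun_prop)

theorem shift_convex {B : Set (WeakDual ℝ X)} (hB : Convex ℝ B) (η₀ : WeakDual ℝ X) (c : ℝ) :
    Convex ℝ ((fun η => (η - η₀, c)) '' B) := by
  rintro _ ⟨p, hp, rfl⟩ _ ⟨q, hq, rfl⟩ a b ha hb hab
  refine ⟨a • p + b • q, hB hp hq ha hb hab, ?_⟩
  have hb' : b = 1 - a := by linarith
  subst hb'
  refine Prod.ext ?_ ?_
  · simp only [Prod.fst_add, Prod.smul_fst]
    module
  · simp only [Prod.snd_add, Prod.smul_snd, smul_eq_mul]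
    ring

/-- adding a constraint which currently holds with a gap -/
theorem add_gap {z : WeakDual ℝ X →ₗ[ℝ] ℝ} {K : Set (WeakDual ℝ X)} {a L : ℝ} {s : X}
    {P : Set (WeakDual ℝ X × ℝ)} (hI : Inv z K a L s P) {B : Set (WeakDual ℝ X)}
    (hB : IsCompact B) (cB : Convex ℝ B) {η₀ : WeakDual ℝ X} (h₀ : η₀ ∈ K) {g : ℝ} (hg : 0 < g)
    (h : ∀ η ∈ B, η s + L * z η ≤ η₀ s + L * z η₀ - g) :
    ∃ P', P ⊆ P' ∧ Inv z K a L s P' ∧ Beaten K B P' := by
  obtain ⟨R, hR, cR, h1, h2, h3⟩ := exists_join hI.cpt (shift_compact hB η₀ (g / 2)) hI.cvx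
    (shift_convex cB η₀ (g / 2))
  refine ⟨R, h1, ⟨hR, cR, ?_, hI.high⟩, η₀, h₀, g / 2, by positivity,
    fun η hη => h2 ⟨η, hη, rfl⟩⟩
  obtain ⟨ε, hε, hP⟩ := hI.slack
  refine ⟨min ε (g / 2), by positivity, fun p hp => ?_⟩
  refine h3 _ (convex_half z s L (-min ε (g / 2))) ?_ ?_ hp
  · intro q hq
    have := hP q hq
    have := min_le_left ε (g / 2)
    simp only [mem_ofPred_eq]
    linarith
  · rintro _ ⟨η, hη, rfl⟩
    have := h η hη
    have := min_le_right ε (g / 2)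
    have e1 : (η - η₀) s = η s - η₀ s := rfl
    simp only [mem_ofPred_eq, e1, map_sub]
    linarith

/-- near maximisers -/
theorem exists_near_max {α : Type*} {B : Set α} (hne : B.Nonempty) (w : α → ℝ) {T : ℝ}
    (hT : ∀ η ∈ B, w η ≤ T) {γ : ℝ} (hγ : 0 < γ) :
    ∃ η₀ ∈ B, ∀ η ∈ B, w η ≤ w η₀ + γ := by
  have hb : BddAbove (w '' B) := ⟨T, by rintro _ ⟨η, hη, rfl⟩; exact hT η hη⟩
  obtain ⟨_, ⟨η₀, h₀, rfl⟩, h⟩ := exists_lt_of_lt_csSup (hne.image w)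
    (show sSup (w '' B) - γ < sSup (w '' B) by linarith)
  refine ⟨η₀, h₀, fun η hη => ?_⟩
  have := le_csSup hb ⟨η, hη, rfl⟩
  linarith

theorem bdd_w {z : WeakDual ℝ X →ₗ[ℝ] ℝ} {K : Set (WeakDual ℝ X)} (hK : IsCompact K)
    {T : ℝ} (hT : ∀ η ∈ K, z η ≤ T) (s : X) {L : ℝ} (hL : 0 ≤ L) :
    ∃ T', ∀ η ∈ K, η s + L * z η ≤ T' := by
  obtain ⟨U, hU⟩ := (hK.image (cont_eval s)).bddAbove
  refine ⟨U + L * T, fun η hη => ?_⟩
  have h1 : η s ≤ U := hU ⟨η, hη, rfl⟩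
  have h2 := mul_le_mul_of_nonneg_left (hT η hη) hL
  linarith

/-- halving the weight of the bidual element -/
theorem halve {z : WeakDual ℝ X →ₗ[ℝ] ℝ} {M : ℝ} (hM : 0 ≤ M)
    (hz : ∀ ζ : WeakDual ℝ X, ∀ ε > 0, ∃ y : X, ‖y‖ ≤ M ∧ ζ y < z ζ + ε)
    {K : Set (WeakDual ℝ X)} (hK : IsCompact K) (cK : Convex ℝ K)
    {T : ℝ} (hT : ∀ η ∈ K, z η ≤ T) {a L : ℝ} (hL : 0 ≤ L) {s : X}
    {P : Set (WeakDual ℝ X × ℝ)} (hI : Inv z K a L s P) :
    ∃ y : X, ‖y‖ ≤ M ∧ Inv z K a (L / 2) (s + (L / 2) • y) P := by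
  obtain ⟨ε₁, hε₁, hP⟩ := hI.slack
  obtain ⟨η₀, h₀, ε, hε, hh⟩ := hI.high
  obtain ⟨T', hT'⟩ := bdd_w hK hT s hL
  obtain ⟨η₁, h₁, hh₁⟩ := exists_near_max ⟨η₀, h₀⟩ (fun η : WeakDual ℝ X => η s + L * z η) hT'
    (show 0 < ε / 4 by positivity)
  obtain ⟨R, hR, cR, h1, h2, h3⟩ := exists_join hI.cpt (shift_compact hK η₁ (-(ε / 4))) hI.cvx
    (shift_convex cK η₁ (-(ε / 4)))
  obtain ⟨y, hy, hy'⟩ := minimax_step z M hM hz R hR cR s L (by
    intro p hp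
    refine h3 _ (convex_half z s L 0) ?_ ?_ hp
    · intro q hq
      have := hP q hq
      simp only [mem_ofPred_eq]
      linarith
    · rintro _ ⟨η, hη, rfl⟩
      have := hh₁ η hη
      have e1 : (η - η₁) s = η s - η₁ s := rfl
      simp only [mem_ofPred_eq, e1, map_sub]
      linarith) (min (ε₁ / 2) (ε / 8)) (by positivity)
  refine ⟨y, hy, hI.cpt, hI.cvx, ⟨ε₁ / 4, by positivity, fun p hp => ?_⟩,
    η₁, h₁, ε / 8, by positivity, fun η hη => ?_⟩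
  · have a1 := hy' p (h1 hp)
    have a2 := hP p hp
    have a3 := min_le_left (ε₁ / 2) (ε / 8)
    simp only [map_add, map_smul, smul_eq_mul]
    linarith
  · have a1 := hy' _ (h2 ⟨η, hη, rfl⟩)
    have e1 : (η - η₁) s = η s - η₁ s := rfl
    have e2 : (η - η₁) y = η y - η₁ y := rfl
    simp only [e1, e2] at a1
    have a2 := hh η hη
    have a3 := min_le_right (ε₁ / 2) (ε / 8)
    have a4 := hh₁ η₀ h₀
    simp only [map_add, map_smul, smul_eq_mul]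
    linarith

/-- small perturbations keep the invariant -/
theorem perturb {z : WeakDual ℝ X →ₗ[ℝ] ℝ} {K : Set (WeakDual ℝ X)} (hK : IsCompact K)
    {a L : ℝ} {s : X} {P : Set (WeakDual ℝ X × ℝ)} (hI : Inv z K a L s P) (v : X) {ρ : ℝ}
    (hρ : 0 < ρ) :
    ∃ t > 0, t * ‖v‖ ≤ ρ ∧ ∀ τ : ℝ, |τ| ≤ t → Inv z K a L (s + τ • v) P := by
  obtain ⟨ε₁, hε₁, hP⟩ := hI.slack
  obtain ⟨η₀, h₀, ε, hε, hh⟩ := hI.high
  obtain ⟨U, hU⟩ := (hI.cpt.image ((cont_eval v).comp continuous_fst).abs).bddAbove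
  obtain ⟨U', hU'⟩ := (hK.image (cont_eval v).abs).bddAbove
  have hU1 : ∀ p ∈ P, |p.1 v| ≤ max U 1 := fun p hp => (hU ⟨p, hp, rfl⟩).trans (le_max_left _ _)
  have hU2 : ∀ η ∈ K, |η v| ≤ max U' 1 := fun p hp => (hU' ⟨p, hp, rfl⟩).trans (le_max_left _ _)
  set A := max U 1 with hA
  set B := max U' 1 with hB
  have hA0 : 0 < A := lt_of_lt_of_le one_pos (le_max_right _ _)
  have hB0 : 0 < B := lt_of_lt_of_le one_pos (le_max_right _ _)
  have hv0 : 0 < ‖v‖ + 1 := by positivity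
  refine ⟨min (min (ε₁ / 2 / A) (ε / 4 / B)) (ρ / (‖v‖ + 1)), by positivity, ?_, ?_⟩
  · calc _ ≤ ρ / (‖v‖ + 1) * ‖v‖ := mul_le_mul_of_nonneg_right (min_le_right _ _) (norm_nonneg _)
      _ ≤ ρ / (‖v‖ + 1) * (‖v‖ + 1) := by gcongr; linarith
      _ = ρ := by field_simp
  intro τ hτ
  have t1 : |τ| ≤ ε₁ / 2 / A := hτ.trans ((min_le_left _ _).trans (min_le_left _ _))
  have t2 : |τ| ≤ ε / 4 / B := hτ.trans ((min_le_left _ _).trans (min_le_right _ _))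
  have k1 : ∀ p ∈ P, |τ * p.1 v| ≤ ε₁ / 2 := by
    intro p hp
    rw [abs_mul]
    calc _ ≤ ε₁ / 2 / A * A := mul_le_mul t1 (hU1 p hp) (abs_nonneg _) (by positivity)
      _ = _ := by field_simp
  have k2 : ∀ η ∈ K, |τ * η v| ≤ ε / 4 := by
    intro p hp
    rw [abs_mul]
    calc _ ≤ ε / 4 / B * B := mul_le_mul t2 (hU2 p hp) (abs_nonneg _) (by positivity)
      _ = _ := by field_simp
  refine ⟨hI.cpt, hI.cvx, ⟨ε₁ / 2, by positivity, fun p hp => ?_⟩,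
    η₀, h₀, ε / 2, by positivity, fun η hη => ?_⟩
  · have a1 := hP p hp
    have a2 := (abs_le.1 (k1 p hp)).2
    simp only [map_add, map_smul, smul_eq_mul]
    linarith
  · have a1 := hh η hη
    have a2 := (abs_le.1 (k2 η hη)).2
    have a3 := (abs_le.1 (k2 η₀ h₀)).1
    simp only [map_add, map_smul, smul_eq_mul]
    linarith

theorem convex_lo {K : Set (WeakDual ℝ X)} (cK : Convex ℝ K) (v : X) (α : ℝ) :
    Convex ℝ {η ∈ K | η v ≤ α} := by
  intro p hp q hq a b ha hb hab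
  refine ⟨cK hp.1 hq.1 ha hb hab, ?_⟩
  have e1 : (a • p + b • q) v = a * p v + b * q v := rfl
  rw [e1]
  have h1 := mul_le_mul_of_nonneg_left hp.2 ha
  have h2 := mul_le_mul_of_nonneg_left hq.2 hb
  have : a * α + b * α = α := by rw [← add_mul, hab, one_mul]
  linarith

theorem convex_hi {K : Set (WeakDual ℝ X)} (cK : Convex ℝ K) (v : X) (β : ℝ) :
    Convex ℝ {η ∈ K | β ≤ η v} := by
  intro p hp q hq a b ha hb hab
  refine ⟨cK hp.1 hq.1 ha hb hab, ?_⟩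
  have e1 : (a • p + b • q) v = a * p v + b * q v := rfl
  rw [e1]
  have h1 := mul_le_mul_of_nonneg_left hp.2 ha
  have h2 := mul_le_mul_of_nonneg_left hq.2 hb
  have : a * β + b * β = β := by rw [← add_mul, hab, one_mul]
  linarith

/-- a perturbation in direction `v` separates one of the two ends of `K` -/
theorem split {z : WeakDual ℝ X →ₗ[ℝ] ℝ} {K : Set (WeakDual ℝ X)} (hK : IsCompact K)
    (cK : Convex ℝ K) {T : ℝ} (hT : ∀ η ∈ K, z η ≤ T)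
    {a L : ℝ} (hL : 0 ≤ L) {s : X} {P : Set (WeakDual ℝ X × ℝ)} (hI : Inv z K a L s P) (v : X)
    {α β : ℝ} (hαβ : α < β) {ρ : ℝ} (hρ : 0 < ρ) :
    ∃ u : X, ‖u‖ ≤ ρ ∧ ∃ P', P ⊆ P' ∧ Inv z K a L (s + u) P' ∧
      (Beaten K {η ∈ K | η v ≤ α} P' ∨ Beaten K {η ∈ K | β ≤ η v} P') := by
  obtain ⟨t, ht, htv, hpert⟩ := perturb hK hI v hρ
  have hlo : IsCompact {η ∈ K | η v ≤ α} :=
    hK.inter_right (isClosed_le (cont_eval v) continuous_const)
  have hhi : IsCompact {η ∈ K | β ≤ η v} :=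
    hK.inter_right (isClosed_le continuous_const (cont_eval v))
  rcases ({η ∈ K | η v ≤ α} ∪ {η ∈ K | β ≤ η v}).eq_empty_or_nonempty with he | hne
  · obtain ⟨η₀, h₀, -⟩ := hI.high
    refine ⟨0, by simpa using hρ.le, P, Subset.rfl, by simpa using hI, Or.inl
      ⟨η₀, h₀, 1, one_pos, fun η hη => ?_⟩⟩
    have : η ∈ ({η ∈ K | η v ≤ α} ∪ {η ∈ K | β ≤ η v}) := Or.inl hη
    rw [he] at this
    exact this.elim
  obtain ⟨T', hT'⟩ := bdd_w hK hT s hL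
  have hγ : 0 < t * (β - α) / 2 := by
    have : 0 < β - α := by linarith
    positivity
  obtain ⟨η₁, h₁, hh₁⟩ := exists_near_max hne (fun η : WeakDual ℝ X => η s + L * z η) (T := T')
    (fun η hη => hT' η (by rcases hη with h | h <;> exact h.1)) hγ
  rcases h₁ with h₁ | h₁
  · obtain ⟨P', h1, h2, h3⟩ := add_gap (hpert (-t) (by rw [abs_neg, abs_of_pos ht])) hhi
      (convex_hi cK v β) h₁.1 hγ (by
        intro η hη
        have a1 := hh₁ η (Or.inr hη)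
        have a2 := mul_le_mul_of_nonneg_left hη.2 ht.le
        have a3 := mul_le_mul_of_nonneg_left h₁.2 ht.le
        simp only [map_add, map_smul, smul_eq_mul]
        linarith)
    refine ⟨(-t) • v, ?_, P', h1, h2, Or.inr h3⟩
    rw [norm_smul, Real.norm_eq_abs, abs_neg, abs_of_pos ht]
    exact htv
  · obtain ⟨P', h1, h2, h3⟩ := add_gap (hpert t (by rw [abs_of_pos ht])) hlo
      (convex_lo cK v α) h₁.1 hγ (by
        intro η hη
        have a1 := hh₁ η (Or.inl hη)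
        have a2 := mul_le_mul_of_nonneg_left hη.2 ht.le
        have a3 := mul_le_mul_of_nonneg_left h₁.2 ht.le
        simp only [map_add, map_smul, smul_eq_mul]
        linarith)
    refine ⟨t • v, ?_, P', h1, h2, Or.inl h3⟩
    rw [norm_smul, Real.norm_eq_abs, abs_of_pos ht]
    exact htv

end Pool.Agent.H756Z.Exp
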