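import Mathlib
import Pool.Agent.H756Z.ExpB

set_option autoImplicit false

open Set Filter Topology

namespace Pool.Agent.H756Z.Exp

variable {X : Type*} [NormedAddCommGroup X] [NormedSpace ℝ X]

/-- one full step of the construction -/
theorem full_step {z : WeakDual ℝ X →ₗ[ℝ] ℝ} {M : ℝ} (hM : 0 ≤ M)
    (hz : ∀ ζ : WeakDual ℝ X, ∀ ε > 0, ∃ y : X, ‖y‖ ≤ M ∧ ζ y < z ζ + ε)
    {K : Set (WeakDual ℝ X)} (hK : IsCompact K) (cK : Convex ℝ K)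
    {T : ℝ} (hT : ∀ η ∈ K, z η ≤ T) {a L : ℝ} (hL : 0 < L) {s : X}
    {P : Set (WeakDual ℝ X × ℝ)} (hI : Inv z K a L s P)
    {B : Set (WeakDual ℝ X)} (hB : IsCompact B) (cB : Convex ℝ B) (hBK : B ⊆ K)
    (hBa : ∀ η ∈ B, z η ≤ a) (v : X) (α β : ℝ) :
    ∃ s' : X, ∃ P', ‖s' - s‖ ≤ (M + 1) * L ∧ P ⊆ P' ∧ Inv z K a (L / 2) s' P' ∧ Beaten K B P' ∧
      (α < β → Beaten K {η ∈ K | η v ≤ α} P' ∨ Beaten K {η ∈ K | β ≤ η v} P') := by
  obtain ⟨η₀, h₀, ε, hε, hh⟩ := hI.high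
  obtain ⟨P₁, hP₁, hI₁, hB₁⟩ := add_gap hI hB cB h₀ hε (by
    intro η hη
    have a1 := hh η (hBK hη)
    have a2 := mul_le_mul_of_nonneg_left (hBa η hη) hL.le
    linarith)
  obtain ⟨y, hy, hI₂⟩ := halve hM hz hK cK hT hL.le hI₁
  have hy' : ‖(L / 2) • y‖ ≤ M * L := by
    rw [norm_smul, Real.norm_eq_abs, abs_of_pos (by positivity)]
    have := norm_nonneg y
    nlinarith
  by_cases hαβ : α < β
  · obtain ⟨u, hu, P₂, hP₂, hI₃, hB₂⟩ := split hK cK hT (by positivity) hI₂ v hαβ hL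
    refine ⟨s + (L / 2) • y + u, P₂, ?_, hP₁.trans hP₂, hI₃, ?_, fun _ => hB₂⟩
    · have : s + (L / 2) • y + u - s = (L / 2) • y + u := by abel
      rw [this]
      have := norm_add_le ((L / 2) • y) u
      linarith
    · obtain ⟨η₁, h₁, c, hc, h⟩ := hB₁
      exact ⟨η₁, h₁, c, hc, fun η hη => hP₂ (h η hη)⟩
  · refine ⟨s + (L / 2) • y, P₁, ?_, hP₁, hI₂, hB₁, fun h => absurd h hαβ⟩
    have : s + (L / 2) • y - s = (L / 2) • y := by abel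
    rw [this]
    linarith

/-- Main theorem: an exposed point of `K` outside countably many compact convex sets on which
a bidual element stays below a level `a` smaller than its value somewhere on `K`. -/
theorem exists_exposed [CompleteSpace X] [TopologicalSpace.SeparableSpace X]
    {z : WeakDual ℝ X →ₗ[ℝ] ℝ} {M : ℝ} (hM : 0 ≤ M)
    (hz : ∀ ζ : WeakDual ℝ X, ∀ ε > 0, ∃ y : X, ‖y‖ ≤ M ∧ ζ y < z ζ + ε)
    {K : Set (WeakDual ℝ X)} (hK : IsCompact K) (cK : Convex ℝ K)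
    {T : ℝ} (hT : ∀ η ∈ K, z η ≤ T) {a : ℝ} {ξ : WeakDual ℝ X} (hξ : ξ ∈ K) (ha : a < z ξ)
    (B : ℕ → Set (WeakDual ℝ X)) (hB : ∀ n, IsCompact (B n)) (cB : ∀ n, Convex ℝ (B n))
    (hBK : ∀ n, B n ⊆ K) (hBa : ∀ n, ∀ η ∈ B n, z η ≤ a) :
    ∃ η ∈ K, (∀ n, η ∉ B n) ∧ ∃ x : X, ∀ ψ ∈ K, ψ ≠ η → ψ x < η x := by
  obtain ⟨d, hd⟩ := TopologicalSpace.exists_dense_seq X
  obtain ⟨e, he⟩ := exists_surjective_nat (ℕ × ℚ × ℚ)
  have step : ∀ (k : ℕ) (σ : X × Set (WeakDual ℝ X × ℝ)), Inv z K a ((1 / 2) ^ k) σ.1 σ.2 →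
      ∃ σ' : X × Set (WeakDual ℝ X × ℝ), ‖σ'.1 - σ.1‖ ≤ (M + 1) * (1 / 2) ^ k ∧ σ.2 ⊆ σ'.2 ∧
        Inv z K a ((1 / 2) ^ (k + 1)) σ'.1 σ'.2 ∧ Beaten K (B k) σ'.2 ∧
        (((e k).2.1 : ℝ) < (e k).2.2 → Beaten K {η ∈ K | η (d (e k).1) ≤ (e k).2.1} σ'.2 ∨
          Beaten K {η ∈ K | ((e k).2.2 : ℝ) ≤ η (d (e k).1)} σ'.2) := by
    intro k σ hσ
    obtain ⟨s', P', h1, h2, h3, h4, h5⟩ := full_step hM hz hK cK hT (by positivity) hσ (hB k)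
      (cB k) (hBK k) (hBa k) (d (e k).1) (e k).2.1 (e k).2.2
    refine ⟨(s', P'), h1, h2, ?_, h4, h5⟩
    have : ((1 : ℝ) / 2) ^ (k + 1) = (1 / 2) ^ k / 2 := by ring
    rw [this]
    exact h3
  choose! f hf using step
  let σ : ℕ → X × Set (WeakDual ℝ X × ℝ) := fun k => Nat.rec (0, ∅) (fun k σ => f k σ) k
  have hσ : ∀ k, σ (k + 1) = f k (σ k) := fun k => rfl
  have hI : ∀ k, Inv z K a ((1 / 2) ^ k) (σ k).1 (σ k).2 := by
    intro k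
    induction k with
    | zero =>
      refine ⟨isCompact_empty, convex_empty, ⟨1, one_pos, by simp [σ]⟩, ξ, hξ, z ξ - a,
        by linarith, fun η _ => ?_⟩
      simp [σ]
    | succ k ih => exact (hf k _ ih).2.2.1
  have hmono : Monotone fun k => (σ k).2 :=
    monotone_nat_of_le_succ fun k => (hf k _ (hI k)).2.1
  have hcauchy : CauchySeq fun k => (σ k).1 := by
    refine cauchySeq_of_le_geometric (1 / 2) (M + 1) (by norm_num) fun k => ?_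
    rw [dist_comm, dist_eq_norm]
    exact (hf k _ (hI k)).1
  obtain ⟨x, hx⟩ := cauchySeq_tendsto_of_complete hcauchy
  have hlim : ∀ k, ∀ p ∈ (σ k).2, p.1 x + p.2 ≤ 0 := by
    intro k p hp
    have h1 : Tendsto (fun j => p.1 (σ j).1) atTop (𝓝 (p.1 x)) :=
      ((WeakDual.toStrongDual p.1).continuous.tendsto x).comp hx
    have h2 : Tendsto (fun j : ℕ => ((1 : ℝ) / 2) ^ j) atTop (𝓝 0) :=
      tendsto_pow_atTop_nhds_zero_of_lt_one (by norm_num) (by norm_num)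
    have h3 := (h1.add (h2.mul_const (z p.1))).add_const p.2
    rw [zero_mul, add_zero] at h3
    refine le_of_tendsto h3 (eventually_atTop.2 ⟨k, fun j hj => ?_⟩)
    obtain ⟨ε, hε, h⟩ := (hI j).slack
    have := h p (hmono hj hp)
    linarith
  obtain ⟨η, hη, hmax⟩ := hK.exists_isMaxOn ⟨ξ, hξ⟩ (cont_eval x).continuousOn
  have hbeat : ∀ k, ∀ A, Beaten K A (σ k).2 → ∀ ψ ∈ A, ψ x < η x := by
    rintro k A ⟨η₀, h₀, c, hc, h⟩ ψ hψ
    have h1 := hlim k _ (h ψ hψ)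
    have e1 : (ψ - η₀) x = ψ x - η₀ x := rfl
    simp only [e1] at h1
    have h2 : η₀ x ≤ η x := hmax h₀
    linarith
  refine ⟨η, hη, fun n hn => ?_, x, fun ψ hψ hne => ?_⟩
  · exact lt_irrefl _ (hbeat (n + 1) _ (hf n _ (hI n)).2.2.2.1 η hn)
  have hle : ψ x ≤ η x := hmax hψ
  refine lt_of_le_of_ne hle fun heq => hne ?_
  have key : ∀ φ₁ ∈ K, ∀ φ₂ ∈ K, φ₁ x = η x → φ₂ x = η x → ∀ i, φ₂ (d i) ≤ φ₁ (d i) := by
    intro φ₁ h₁ φ₂ h₂ e₁ e₂ i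
    by_contra hlt
    push Not at hlt
    obtain ⟨α, hα₁, hα₂⟩ := exists_rat_btwn hlt
    obtain ⟨β, hβ₁, hβ₂⟩ := exists_rat_btwn hα₂
    obtain ⟨k, hk⟩ := he (i, α, β)
    have := (hf k _ (hI k)).2.2.2.2
    rw [hk] at this
    rcases this hβ₁ with h | h
    · have := hbeat (k + 1) _ h φ₁ ⟨h₁, hα₁.le⟩
      linarith
    · have := hbeat (k + 1) _ h φ₂ ⟨h₂, hβ₂.le⟩
      linarith
  have hfun : (fun y => ψ y) = fun y => η y := by
    refine Continuous.ext_on hd (WeakDual.toStrongDual ψ).continuous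
      (WeakDual.toStrongDual η).continuous ?_
    rintro _ ⟨i, rfl⟩
    exact le_antisymm (key η hη ψ hψ rfl heq i) (key ψ hψ η hη heq rfl i)
  exact DFunLike.ext _ _ fun y => congrFun hfun y

end Pool.Agent.H756Z.Exp
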