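import Mathlib
import Pool.Agent.H756Z.ExpC

set_option autoImplicit false

open Set Filter Topology

namespace Pool.Agent.H756Z.Exp

variable {X : Type*} [NormedAddCommGroup X] [NormedSpace ℝ X]

theorem goldstine (f : (X →L[ℝ] ℝ) →L[ℝ] ℝ) (ζ : X →L[ℝ] ℝ) (ε : ℝ) (hε : 0 < ε) :
    ∃ y : X, ‖y‖ ≤ ‖f‖ ∧ ζ y < f ζ + ε := by
  have hM := norm_nonneg f
  have h1 : -(‖f‖ * ‖ζ‖) ≤ f ζ := (abs_le.1 (f.le_opNorm ζ)).1
  have hδ : 0 < ε / (‖f‖ + 1) := by positivity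
  obtain ⟨y, hy, hy'⟩ := ζ.exists_lt_apply_of_lt_opNorm
    (show ‖ζ‖ - ε / (‖f‖ + 1) < ‖ζ‖ by linarith)
  have h2 : ‖f‖ * (ε / (‖f‖ + 1)) < ε := by
    rw [← mul_div_assoc, div_lt_iff₀ (by positivity)]
    nlinarith
  have h3 := mul_le_mul_of_nonneg_left hy'.le hM
  rw [Real.norm_eq_abs] at h3
  rcases le_total 0 (ζ y) with h | h
  · refine ⟨(-‖f‖) • y, ?_, ?_⟩
    · rw [norm_smul, norm_neg, Real.norm_eq_abs, abs_of_nonneg hM]
      nlinarith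
    · rw [abs_of_nonneg h] at h3
      simp only [map_smul, smul_eq_mul]
      nlinarith
  · refine ⟨‖f‖ • y, ?_, ?_⟩
    · rw [norm_smul, Real.norm_eq_abs, abs_of_nonneg hM]
      nlinarith
    · rw [abs_of_nonpos h] at h3
      simp only [map_smul, smul_eq_mul]
      nlinarith

theorem closed_W (C : Set (X →L[ℝ] ℝ)) :
    IsClosed {φ : WeakDual ℝ X | ∀ F : Finset X, ∀ ε : ℝ, 0 < ε →
      ∃ ψ ∈ C, ∀ x ∈ F, |φ x - ψ x| < ε} := by
  rw [← closure_subset_iff_isClosed]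
  intro φ hφ F ε hε
  have hU : IsOpen (⋂ x ∈ F, {φ' : WeakDual ℝ X | |φ x - φ' x| < ε / 2}) :=
    isOpen_biInter_finset fun x _ =>
      isOpen_lt (continuous_const.sub (cont_eval x)).abs continuous_const
  obtain ⟨φ', h1, h2⟩ := mem_closure_iff.1 hφ _ hU (by
    simp only [mem_iInter, mem_ofPred_eq, sub_self, abs_zero]
    intro _ _
    positivity)
  obtain ⟨ψ, hψ, h3⟩ := h2 F (ε / 2) (by positivity)
  refine ⟨ψ, hψ, fun x hx => ?_⟩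
  simp only [mem_iInter, mem_ofPred_eq] at h1
  have a1 := abs_lt.1 (h1 x hx)
  have a2 := abs_lt.1 (h3 x hx)
  rw [abs_lt]
  constructor <;> linarith [a1.1, a1.2, a2.1, a2.2]

theorem convex_W {C : Set (X →L[ℝ] ℝ)} (hC : Convex ℝ C) :
    Convex ℝ {φ : WeakDual ℝ X | ∀ F : Finset X, ∀ ε : ℝ, 0 < ε →
      ∃ ψ ∈ C, ∀ x ∈ F, |φ x - ψ x| < ε} := by
  intro p hp q hq a b ha hb hab F ε hε
  obtain ⟨ψ₁, h₁, k₁⟩ := hp F (ε / 2) (by positivity)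
  obtain ⟨ψ₂, h₂, k₂⟩ := hq F (ε / 2) (by positivity)
  refine ⟨a • ψ₁ + b • ψ₂, hC h₁ h₂ ha hb hab, fun x hx => ?_⟩
  have e1 : (a • p + b • q) x = a * p x + b * q x := rfl
  have e2 : (a • ψ₁ + b • ψ₂) x = a * ψ₁ x + b * ψ₂ x := rfl
  rw [e1, e2]
  have a1 := abs_lt.1 (k₁ x hx)
  have a2 := abs_lt.1 (k₂ x hx)
  have b1 := mul_le_mul_of_nonneg_left a1.1.le ha
  have b2 := mul_le_mul_of_nonneg_left a1.2.le ha
  have b3 := mul_le_mul_of_nonneg_left a2.1.le hb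
  have b4 := mul_le_mul_of_nonneg_left a2.2.le hb
  have : a * (ε / 2) + b * (ε / 2) = ε / 2 := by rw [← add_mul, hab, one_mul]
  rw [abs_lt]
  constructor <;> nlinarith

theorem main [CompleteSpace X] [TopologicalSpace.SeparableSpace X] (B : ℕ → Set (X →L[ℝ] ℝ))
    (hB : {φ : X →L[ℝ] ℝ | ‖φ‖ ≤ 1 ∧ ∃ x : X, ∀ ψ : X →L[ℝ] ℝ, ‖ψ‖ ≤ 1 → ψ ≠ φ → ψ x < φ x}
      ⊆ ⋃ n, B n) :
    Metric.closedBall (0 : X →L[ℝ] ℝ) 1 ⊆
      closure (convexHull ℝ (⋃ n, {φ : X →L[ℝ] ℝ | ∀ F : Finset X, ∀ ε : ℝ, 0 < ε →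
        ∃ ψ ∈ convexHull ℝ (B n), ∀ x ∈ F, |φ x - ψ x| < ε})) := by
  intro ξ hξ
  by_contra hn
  obtain ⟨f, u, hf, hu⟩ := geometric_hahn_banach_closed_point
    (convex_convexHull ℝ _).closure isClosed_closure hn
  let K : Set (WeakDual ℝ X) := WeakDual.toStrongDual ⁻¹' Metric.closedBall 0 1
  have hK : IsCompact K := WeakDual.isCompact_closedBall 0 1
  have cK : Convex ℝ K :=
    (convex_closedBall (0 : StrongDual ℝ X) 1).linear_preimage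
      (WeakDual.toStrongDual (𝕜 := ℝ) (E := X)).toLinearMap
  have mK : ∀ η : WeakDual ℝ X, η ∈ K ↔ ‖WeakDual.toStrongDual η‖ ≤ 1 := by
    intro η
    simp [K]
  let z : WeakDual ℝ X →ₗ[ℝ] ℝ :=
    f.toLinearMap.comp (WeakDual.toStrongDual (𝕜 := ℝ) (E := X)).toLinearMap
  let W : ℕ → Set (WeakDual ℝ X) := fun n => {φ : WeakDual ℝ X | ∀ F : Finset X, ∀ ε : ℝ, 0 < ε →
      ∃ ψ ∈ convexHull ℝ (B n), ∀ x ∈ F, |φ x - ψ x| < ε}
  obtain ⟨η, hη, h1, x, hx⟩ := exists_exposed (z := z) (M := ‖f‖) (norm_nonneg f)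
    (fun ζ ε hε => goldstine f (WeakDual.toStrongDual ζ) ε hε) hK cK (T := ‖f‖)
    (fun η hη => by
      have a1 : f (WeakDual.toStrongDual η) ≤ ‖f‖ * ‖WeakDual.toStrongDual η‖ :=
        (abs_le.1 (f.le_opNorm _)).2
      have a2 := mul_le_mul_of_nonneg_left ((mK η).1 hη) (norm_nonneg f)
      change f (WeakDual.toStrongDual η) ≤ _
      linarith)
    (a := u) (ξ := StrongDual.toWeakDual ξ) hξ hu (fun n => K ∩ W n)
    (fun n => hK.inter_right (closed_W _))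
    (fun n => cK.inter (convex_W (convex_convexHull ℝ _)))
    (fun n => inter_subset_left)
    (fun n η hη => (hf (WeakDual.toStrongDual η)
      (subset_closure (subset_convexHull ℝ _ (mem_iUnion.2 ⟨n, hη.2⟩)))).le)
  have hmem : WeakDual.toStrongDual η ∈ ⋃ n, B n := by
    refine hB ⟨(mK η).1 hη, x, fun ψ hψ hne => ?_⟩
    exact hx (StrongDual.toWeakDual ψ) ((mK _).2 hψ) hne
  obtain ⟨n, hn⟩ := mem_iUnion.1 hmem
  refine h1 n ⟨hη, fun F ε hε => ⟨_, subset_convexHull ℝ _ hn, fun y _ => ?_⟩⟩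
  have : (WeakDual.toStrongDual η) y = η y := rfl
  rw [this, sub_self, abs_zero]
  exact hε

end Pool.Agent.H756Z.Exp
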