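import Mathlib
import Pool.Agent.H756Z.ExpD

set_option autoImplicit false

open Set Filter Topology

namespace Pool.Agent.H756Z.Exp

/-- building an independent sequence -/
theorem exists_independent {Ω ι : Type*} [Nonempty ι] (A B : ι → Set Ω) (𝒞 : Set (Set Ω))
    (D : Set Ω) (hD : D ∈ 𝒞) (hDn : D.Nonempty)
    (hA : ∀ S ∈ 𝒞, ∀ i, S ∩ A i ∈ 𝒞) (hB : ∀ S ∈ 𝒞, ∀ i, S ∩ B i ∈ 𝒞)
    (H : ∀ 𝒮 : Set (Set Ω), 𝒮.Finite → (∀ S ∈ 𝒮, S ∈ 𝒞 ∧ S.Nonempty) →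
      ∃ i, ∀ S ∈ 𝒮, (S ∩ A i).Nonempty ∧ (S ∩ B i).Nonempty) :
    ∃ i : ℕ → ι, ∀ (n : ℕ) (σ : ℕ → Prop), ∃ ω ∈ D, ∀ k < n,
      (σ k → ω ∈ A (i k)) ∧ (¬ σ k → ω ∈ B (i k)) := by
  choose! f hf using H
  let 𝒮 : ℕ → Set (Set Ω) := fun n => Nat.rec {D}
    (fun _ 𝒯 => (fun S => S ∩ A (f 𝒯)) '' 𝒯 ∪ (fun S => S ∩ B (f 𝒯)) '' 𝒯) n
  have h𝒮 : ∀ n, 𝒮 (n + 1) = (fun S => S ∩ A (f (𝒮 n))) '' 𝒮 n ∪
    (fun S => S ∩ B (f (𝒮 n))) '' 𝒮 n := fun n => rfl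
  have hinv : ∀ n, (𝒮 n).Finite ∧ ∀ S ∈ 𝒮 n, S ∈ 𝒞 ∧ S.Nonempty := by
    intro n
    induction n with
    | zero =>
      refine ⟨finite_singleton D, fun S hS => ?_⟩
      have : S = D := hS
      subst this
      exact ⟨hD, hDn⟩
    | succ n ih =>
      rw [h𝒮]
      refine ⟨(ih.1.image _).union (ih.1.image _), ?_⟩
      rintro _ (⟨S, hS, rfl⟩ | ⟨S, hS, rfl⟩)
      · exact ⟨hA S (ih.2 S hS).1 _, (hf _ ih.1 ih.2 S hS).1⟩
      · exact ⟨hB S (ih.2 S hS).1 _, (hf _ ih.1 ih.2 S hS).2⟩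
  refine ⟨fun n => f (𝒮 n), fun n σ => ?_⟩
  have : ∃ S ∈ 𝒮 n, ∀ ω ∈ S, ω ∈ D ∧ ∀ k < n,
      (σ k → ω ∈ A (f (𝒮 k))) ∧ (¬ σ k → ω ∈ B (f (𝒮 k))) := by
    induction n with
    | zero => exact ⟨D, rfl, fun ω hω => ⟨hω, fun k hk => absurd hk (Nat.not_lt_zero k)⟩⟩
    | succ n ih =>
      obtain ⟨S, hS, h⟩ := ih
      by_cases hσ : σ n
      · refine ⟨S ∩ A (f (𝒮 n)), by rw [h𝒮]; exact Or.inl ⟨S, hS, rfl⟩, fun ω hω =>
          ⟨(h ω hω.1).1, fun k hk => ?_⟩⟩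
        rcases Nat.lt_succ_iff_lt_or_eq.1 hk with hk | rfl
        · exact (h ω hω.1).2 k hk
        · exact ⟨fun _ => hω.2, fun h' => absurd hσ h'⟩
      · refine ⟨S ∩ B (f (𝒮 n)), by rw [h𝒮]; exact Or.inr ⟨S, hS, rfl⟩, fun ω hω =>
          ⟨(h ω hω.1).1, fun k hk => ?_⟩⟩
        rcases Nat.lt_succ_iff_lt_or_eq.1 hk with hk | rfl
        · exact (h ω hω.1).2 k hk
        · exact ⟨fun h' => absurd h' hσ, fun _ => hω.2⟩
  obtain ⟨S, hS, h⟩ := this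
  obtain ⟨ω, hω⟩ := ((hinv n).2 S hS).2
  exact ⟨ω, (h ω hω).1, (h ω hω).2⟩

variable {X : Type*} [NormedAddCommGroup X] [NormedSpace ℝ X]

/-- an independent bounded sequence spans a copy of `ℓ¹` -/
theorem l1_of_independent [CompleteSpace X] (x : ℕ → X) {C : ℝ} (hC : ∀ k, ‖x k‖ ≤ C)
    {a b : ℝ} (hab : a < b)
    (h : ∀ (n : ℕ) (σ : ℕ → Prop), ∃ η : X →L[ℝ] ℝ, ‖η‖ ≤ 1 ∧ ∀ k < n,
      (σ k → b < η (x k)) ∧ (¬ σ k → η (x k) < a)) :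
    ∃ T : (lp (fun _ : ℕ => ℝ) 1) →L[ℝ] X, ∃ c : ℝ, 0 < c ∧ ∀ u, c * ‖u‖ ≤ ‖T u‖ := by
  have hs : ∀ u : lp (fun _ : ℕ => ℝ) 1, HasSum (fun k => ‖u k‖) ‖u‖ := by
    intro u
    have := lp.hasSum_norm (p := 1) (by simp) u
    simpa using this
  have hle : ∀ (u : lp (fun _ : ℕ => ℝ) 1) k, ‖u k • x k‖ ≤ ‖u k‖ * C := by
    intro u k
    rw [norm_smul]
    exact mul_le_mul_of_nonneg_left (hC k) (norm_nonneg _)
  have hsum : ∀ u : lp (fun _ : ℕ => ℝ) 1, Summable fun k => u k • x k := fun u =>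
    Summable.of_norm_bounded ((hs u).summable.mul_right C) (hle u)
  let T₀ : lp (fun _ : ℕ => ℝ) 1 →ₗ[ℝ] X :=
    { toFun := fun u => ∑' k, u k • x k
      map_add' := fun u v => by
        rw [← (hsum u).tsum_add (hsum v)]
        congr 1
        ext k
        simp [add_smul]
      map_smul' := fun r u => by
        rw [RingHom.id_apply, ← (hsum u).tsum_const_smul r]
        congr 1
        ext k
        simp [smul_smul] }
  have hT₀ : ∀ u, ‖T₀ u‖ ≤ C * ‖u‖ := by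
    intro u
    have := tsum_of_norm_bounded ((hs u).mul_right C) (hle u)
    rw [mul_comm]
    exact this
  refine ⟨T₀.mkContinuous C hT₀, (b - a) / 2, by linarith, fun u => ?_⟩
  have h1 : Tendsto (fun n => ‖∑ k ∈ Finset.range n, u k • x k‖) atTop (𝓝 ‖T₀ u‖) :=
    ((hsum u).hasSum.tendsto_sum_nat).norm
  have h2 : Tendsto (fun n => (b - a) / 2 * ∑ k ∈ Finset.range n, ‖u k‖) atTop
      (𝓝 ((b - a) / 2 * ‖u‖)) := ((hs u).tendsto_sum_nat).const_mul _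
  refine le_of_tendsto_of_tendsto' h2 h1 fun n => ?_
  obtain ⟨η₁, n₁, k₁⟩ := h n (fun k => 0 ≤ u k)
  obtain ⟨η₂, n₂, k₂⟩ := h n (fun k => ¬ 0 ≤ u k)
  set S := ∑ k ∈ Finset.range n, u k • x k with hS
  have a1 : η₁ S ≤ ‖S‖ := by
    have := (abs_le.1 (η₁.le_opNorm S)).2
    have := mul_le_mul_of_nonneg_right n₁ (norm_nonneg S)
    linarith
  have a2 : -‖S‖ ≤ η₂ S := by
    have := (abs_le.1 (η₂.le_opNorm S)).1
    have := mul_le_mul_of_nonneg_right n₂ (norm_nonneg S)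
    linarith
  have a3 : (b - a) * ∑ k ∈ Finset.range n, ‖u k‖ ≤ η₁ S - η₂ S := by
    rw [hS, map_sum, map_sum, ← Finset.sum_sub_distrib, Finset.mul_sum]
    refine Finset.sum_le_sum fun k hk => ?_
    have hk' := Finset.mem_range.1 hk
    simp only [map_smul, smul_eq_mul, Real.norm_eq_abs]
    by_cases hu : 0 ≤ u k
    · have b1 := (k₁ k hk').1 hu
      have b2 := (k₂ k hk').2 (not_not.2 hu)
      rw [abs_of_nonneg hu]
      nlinarith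
    · have b1 := (k₁ k hk').2 hu
      have b2 := (k₂ k hk').1 hu
      push Not at hu
      rw [abs_of_neg hu]
      nlinarith
  linarith

/-- finitely many strict inequalities satisfied by the bidual element are satisfied by a member
of a dense sequence -/
theorem fin_goldstine (z : WeakDual ℝ X →ₗ[ℝ] ℝ) (M : ℝ) (hM : 0 ≤ M)
    (hz : ∀ ζ : WeakDual ℝ X, ∀ ε > 0, ∃ y : X, ‖y‖ ≤ M ∧ ζ y < z ζ + ε)
    {d : ℕ → X} (hd : DenseRange d)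
    (S : Set (WeakDual ℝ X × ℝ)) (hS : S.Finite) (h : ∀ p ∈ S, z p.1 + p.2 < 0) :
    ∃ i, ‖d i‖ ≤ M + 1 ∧ ∀ p ∈ S, p.1 (d i) + p.2 < 0 := by
  have : ∃ ε > 0, ∀ p ∈ S, z p.1 + p.2 ≤ -ε := by
    rcases S.eq_empty_or_nonempty with rfl | hne
    · exact ⟨1, one_pos, by simp⟩
    obtain ⟨p₀, hp₀, hmax⟩ := hS.exists_maximalFor (fun p => z p.1 + p.2) S hne
    refine ⟨-(z p₀.1 + p₀.2), by linarith [h p₀ hp₀], fun p hp => ?_⟩
    rcases le_total (z p.1 + p.2) (z p₀.1 + p₀.2) with h' | h'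
    · linarith
    · have := hmax hp h'
      linarith
  obtain ⟨ε, hε, hε'⟩ := this
  let S' : Set (WeakDual ℝ X × ℝ) := (fun p => (p.1, p.2 + ε)) '' S
  obtain ⟨y, hy, hy'⟩ := minimax_step z M hM hz (convexHull ℝ S')
    ((hS.image _).isCompact_convexHull ℝ) (convex_convexHull ℝ _) 0 1 (by
      intro p hp
      refine convexHull_min (t := {p : WeakDual ℝ X × ℝ | p.1 0 + 1 * z p.1 + p.2 ≤ 0}) ?_
        (convex_half z 0 1 0) hp
      rintro _ ⟨q, hq, rfl⟩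
      have := hε' q hq
      simp only [mem_ofPred_eq, map_zero]
      linarith) ε hε
  have hU : IsOpen ({w : X | ‖w‖ < M + 1} ∩ ⋂ p ∈ S, {w : X | p.1 w + p.2 < 0}) :=
    (isOpen_lt continuous_norm continuous_const).inter (hS.isOpen_biInter fun p _ =>
      isOpen_lt ((WeakDual.toStrongDual p.1).continuous.add continuous_const) continuous_const)
  obtain ⟨i, hi⟩ := hd.exists_mem_open hU ⟨y, by
    refine ⟨by simp only [mem_ofPred_eq]; linarith, mem_iInter₂.2 fun p hp => ?_⟩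
    have := hy' _ (subset_convexHull ℝ _ ⟨p, hp, rfl⟩)
    simp only [map_zero] at this
    simp only [mem_ofPred_eq]
    linarith⟩
  exact ⟨i, le_of_lt hi.1, fun p hp => mem_iInter₂.1 hi.2 p hp⟩

end Pool.Agent.H756Z.Exp
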