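import Mathlib
import Pool.Agent.H756Z.ExpE

set_option autoImplicit false

open Set Filter Topology

namespace Pool.Agent.H756Z.Exp

variable {X : Type*} [NormedAddCommGroup X] [NormedSpace ℝ X]

/-- `S` is covered by countably many compact convex subsets of `K` on which `z ≤ b` -/
def Good (z : WeakDual ℝ X →ₗ[ℝ] ℝ) (K : Set (WeakDual ℝ X)) (b : ℝ) (S : Set (WeakDual ℝ X)) :
    Prop :=
  ∃ 𝔅 : Set (Set (WeakDual ℝ X)), 𝔅.Countable ∧
    (∀ B ∈ 𝔅, IsCompact B ∧ Convex ℝ B ∧ B ⊆ K ∧ ∀ η ∈ B, z η ≤ b) ∧ S ⊆ ⋃₀ 𝔅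

theorem Good.mono {z : WeakDual ℝ X →ₗ[ℝ] ℝ} {K : Set (WeakDual ℝ X)} {b : ℝ}
    {S S' : Set (WeakDual ℝ X)} (h : Good z K b S) (h' : S' ⊆ S) : Good z K b S' := by
  obtain ⟨𝔅, h1, h2, h3⟩ := h
  exact ⟨𝔅, h1, h2, h'.trans h3⟩

theorem good_iUnion {z : WeakDual ℝ X →ₗ[ℝ] ℝ} {K : Set (WeakDual ℝ X)} {b : ℝ} {ι : Type*}
    [Countable ι] {S : ι → Set (WeakDual ℝ X)} (h : ∀ i, Good z K b (S i)) :
    Good z K b (⋃ i, S i) := by
  choose 𝔅 h1 h2 h3 using h
  refine ⟨⋃ i, 𝔅 i, countable_iUnion h1, fun B hB => ?_, fun η hη => ?_⟩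
  · obtain ⟨i, hi⟩ := mem_iUnion.1 hB
    exact h2 i B hi
  · obtain ⟨i, hi⟩ := mem_iUnion.1 hη
    obtain ⟨B, hB, hη'⟩ := h3 i hi
    exact ⟨B, mem_iUnion.2 ⟨i, hB⟩, hη'⟩

theorem Good.union {z : WeakDual ℝ X →ₗ[ℝ] ℝ} {K : Set (WeakDual ℝ X)} {b : ℝ}
    {S S' : Set (WeakDual ℝ X)} (h : Good z K b S) (h' : Good z K b S') :
    Good z K b (S ∪ S') := by
  rw [union_eq_iUnion]
  exact good_iUnion fun i => by cases i <;> assumption

/-- dichotomy: either the sublevel set is countably covered, or there is an independent sequence -/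
theorem good_or_independent [TopologicalSpace.SeparableSpace X]
    (z : WeakDual ℝ X →ₗ[ℝ] ℝ) (M : ℝ) (hM : 0 ≤ M)
    (hz : ∀ ζ : WeakDual ℝ X, ∀ ε > 0, ∃ y : X, ‖y‖ ≤ M ∧ ζ y < z ζ + ε)
    {K : Set (WeakDual ℝ X)} (hK : IsCompact K) (cK : Convex ℝ K) (a b : ℝ)
    (hng : ¬ Good z K b {η ∈ K | z η < a}) :
    ∃ x : ℕ → X, (∀ k, ‖x k‖ ≤ M + 1) ∧ ∀ (n : ℕ) (σ : ℕ → Prop), ∃ η ∈ K, ∀ k < n,
      (σ k → b < η (x k)) ∧ (¬ σ k → η (x k) < a) := by
  classical
  obtain ⟨d, hd⟩ := TopologicalSpace.exists_dense_seq X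
  let U : Finset ℕ × Finset ℕ → Set (WeakDual ℝ X) := fun l =>
    {η ∈ K | z η < a ∧ (∀ i ∈ l.1, b < η (d i)) ∧ ∀ i ∈ l.2, η (d i) < a}
  let G : Set (WeakDual ℝ X) := ⋃ l : {l // Good z K b (U l)}, U l
  have hG : Good z K b G := good_iUnion fun l => l.2
  let ι := {i : ℕ // ‖d i‖ ≤ M + 1}
  have hι : Nonempty ι := by
    obtain ⟨i, hi, -⟩ := fin_goldstine z M hM hz hd ∅ finite_empty (by simp)
    exact ⟨⟨i, hi⟩⟩
  have hU0 : U (∅, ∅) = {η ∈ K | z η < a} := by
    ext η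
    simp [U]
    tauto
  obtain ⟨i, hi⟩ := exists_independent (fun i : ι => {η : WeakDual ℝ X | b < η (d i)})
    (fun i : ι => {η : WeakDual ℝ X | η (d i) < a}) (range fun l => U l \ G) (U (∅, ∅) \ G)
    ⟨_, rfl⟩ (by
      rw [nonempty_iff_ne_empty]
      intro he
      rw [Set.sdiff_eq_empty, hU0] at he
      exact hng (hG.mono he))
    (by
      rintro _ ⟨l, rfl⟩ i
      refine ⟨(insert i.1 l.1, l.2), ?_⟩
      ext η
      simp only [U, Finset.forall_mem_insert, Set.mem_sdiff, mem_ofPred_eq, mem_inter_iff]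
      tauto)
    (by
      rintro _ ⟨l, rfl⟩ i
      refine ⟨(l.1, insert i.1 l.2), ?_⟩
      ext η
      simp only [U, Finset.forall_mem_insert, Set.mem_sdiff, mem_ofPred_eq, mem_inter_iff]
      tauto)
    (by
      intro 𝒮 h𝒮 hS
      have key : ∀ S ∈ 𝒮, ∃ p q : WeakDual ℝ X, p ∈ S ∧ z p < a ∧
          q ∈ closure (convexHull ℝ S) ∧ b < z q := by
        intro S hS'
        obtain ⟨⟨l, rfl⟩, p, hp⟩ := hS S hS'
        by_contra hcon
        push Not at hcon
        have hsub : closure (convexHull ℝ (U l \ G)) ⊆ K :=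
          closure_minimal (convexHull_min (fun η hη => hη.1.1) cK) hK.isClosed
        have h1 : Good z K b (U l \ G) := by
          refine ⟨{closure (convexHull ℝ (U l \ G))}, countable_singleton _, ?_, ?_⟩
          · rintro B rfl
            exact ⟨hK.of_isClosed_subset isClosed_closure hsub, (convex_convexHull ℝ _).closure,
              hsub, fun η hη => hcon p η hp hp.1.2.1 hη⟩
          · rw [sUnion_singleton]
            exact (subset_convexHull ℝ _).trans subset_closure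
        have h2 : Good z K b (U l) := (h1.union hG).mono (by
          intro η hη
          by_cases h : η ∈ G
          · exact Or.inr h
          · exact Or.inl ⟨hη, h⟩)
        exact hp.2 (mem_iUnion.2 ⟨⟨l, h2⟩, hp.1⟩)
      choose! p q hp hp' hq hq' using key
      obtain ⟨i, hi, hi'⟩ := fin_goldstine z M hM hz hd
        ((fun S => (p S, -a)) '' 𝒮 ∪ (fun S => (-q S, b)) '' 𝒮)
        ((h𝒮.image _).union (h𝒮.image _)) (by
          rintro _ (⟨S, hS', rfl⟩ | ⟨S, hS', rfl⟩)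
          · have := hp' S hS'
            simp only
            linarith
          · have := hq' S hS'
            simp only [map_neg]
            linarith)
      refine ⟨⟨i, hi⟩, fun S hS' => ⟨?_, p S, hp S hS', ?_⟩⟩
      · by_contra hcon
        have h1 : closure (convexHull ℝ S) ⊆ {η ∈ (univ : Set (WeakDual ℝ X)) | η (d i) ≤ b} := by
          refine closure_minimal (convexHull_min (fun η hη => ⟨mem_univ _, ?_⟩)
            (convex_lo convex_univ (d i) b)) ?_
          · by_contra h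
            exact hcon ⟨η, hη, not_le.1 h⟩
          · exact isClosed_univ.inter (isClosed_le (cont_eval (d i)) continuous_const)
        have h2 := (h1 (hq S hS')).2
        have h3 := hi' _ (Or.inr ⟨S, hS', rfl⟩)
        have e1 : (-q S) (d i) = -(q S (d i)) := rfl
        simp only [e1] at h3
        linarith
      · have h3 := hi' _ (Or.inl ⟨S, hS', rfl⟩)
        simp only [mem_ofPred_eq] at h3 ⊢
        linarith)
  refine ⟨fun k => d (i k), fun k => (i k).2, fun n σ => ?_⟩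
  obtain ⟨η, hη, h⟩ := hi n σ
  exact ⟨η, hη.1.1, h⟩

theorem godefroy [CompleteSpace X] [TopologicalSpace.SeparableSpace X]
    (hX : ¬ ∃ T : (lp (fun _ : ℕ => ℝ) 1) →L[ℝ] X, ∃ c : ℝ, 0 < c ∧ ∀ a, c * ‖a‖ ≤ ‖T a‖) :
    closure (convexHull ℝ
      {f : X →L[ℝ] ℝ | f ∈ Metric.closedBall (0 : X →L[ℝ] ℝ) 1 ∧
        ∃ x : X, ∀ g ∈ Metric.closedBall (0 : X →L[ℝ] ℝ) 1, g ≠ f → g x < f x})
      = Metric.closedBall (0 : X →L[ℝ] ℝ) 1 := by
  refine Subset.antisymm (closure_minimal (convexHull_min (fun f hf => hf.1)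
    (convex_closedBall _ _)) Metric.isClosed_closedBall) fun ξ hξ => ?_
  by_contra hn
  obtain ⟨f, u, hf, hu⟩ := geometric_hahn_banach_closed_point
    (convex_convexHull ℝ _).closure isClosed_closure hn
  let K : Set (WeakDual ℝ X) := WeakDual.toStrongDual ⁻¹' Metric.closedBall 0 1
  have hK : IsCompact K := WeakDual.isCompact_closedBall 0 1
  have cK : Convex ℝ K :=
    (convex_closedBall (0 : StrongDual ℝ X) 1).linear_preimage
      (WeakDual.toStrongDual (𝕜 := ℝ) (E := X)).toLinearMap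
  have mK : ∀ η : WeakDual ℝ X, η ∈ K ↔ ‖WeakDual.toStrongDual η‖ ≤ 1 := by
    intro η
    simp [K]
  let z : WeakDual ℝ X →ₗ[ℝ] ℝ :=
    f.toLinearMap.comp (WeakDual.toStrongDual (𝕜 := ℝ) (E := X)).toLinearMap
  have hz : ∀ ζ : WeakDual ℝ X, ∀ ε > 0, ∃ y : X, ‖y‖ ≤ ‖f‖ ∧ ζ y < z ζ + ε :=
    fun ζ ε hε => goldstine f (WeakDual.toStrongDual ζ) ε hε
  obtain ⟨b, hub, hb⟩ := exists_between hu
  by_cases hg : Good z K b {η ∈ K | z η < u}
  · obtain ⟨𝔅, h1, h2, h3⟩ := hg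
    obtain ⟨B, hB⟩ := (h1.insert ∅).exists_eq_range (insert_nonempty _ _)
    have h4 : ∀ n, IsCompact (B n) ∧ Convex ℝ (B n) ∧ B n ⊆ K ∧ ∀ η ∈ B n, z η ≤ b := by
      intro n
      have : B n ∈ insert ∅ 𝔅 := by rw [hB]; exact mem_range_self n
      rcases this with h | h
      · rw [h]
        exact ⟨isCompact_empty, convex_empty, empty_subset _, by simp⟩
      · exact h2 _ h
    obtain ⟨η, hη, h5, x, hx⟩ := exists_exposed (z := z) (M := ‖f‖) (norm_nonneg f) hz hK cK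
      (T := ‖f‖)
      (fun η hη => by
        have a1 : f (WeakDual.toStrongDual η) ≤ ‖f‖ * ‖WeakDual.toStrongDual η‖ :=
          (abs_le.1 (f.le_opNorm _)).2
        have a2 := mul_le_mul_of_nonneg_left ((mK η).1 hη) (norm_nonneg f)
        change f (WeakDual.toStrongDual η) ≤ _
        linarith)
      (a := b) (ξ := StrongDual.toWeakDual ξ) hξ hb B (fun n => (h4 n).1) (fun n => (h4 n).2.1)
      (fun n => (h4 n).2.2.1) (fun n => (h4 n).2.2.2)
    have h6 : z η < u := hf (WeakDual.toStrongDual η) (subset_closure (subset_convexHull ℝ _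
      ⟨hη, x, fun ψ hψ hne => hx (StrongDual.toWeakDual ψ) hψ hne⟩))
    obtain ⟨A, hA, hηA⟩ := h3 ⟨hη, h6⟩
    have : A ∈ range B := by rw [← hB]; exact Or.inr hA
    obtain ⟨n, rfl⟩ := this
    exact h5 n hηA
  · obtain ⟨x, hx, h⟩ := good_or_independent z ‖f‖ (norm_nonneg f) hz hK cK u b hg
    refine hX (l1_of_independent x hx hub fun n σ => ?_)
    obtain ⟨η, hη, h'⟩ := h n σ
    exact ⟨WeakDual.toStrongDual η, (mK η).1 hη, h'⟩

end Pool.Agent.H756Z.Exp
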