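import Mathlib

set_option autoImplicit false

open Finset

namespace Pool.Agent.H756Z.Hyp

variable (D : ℕ → ℕ) (c : ℕ → ℕ → ℂ)

/-- growth bound -/
noncomputable def W : ℕ → ℝ
  | 0 => 1
  | k + 1 => W k * (1 + ∑ d ∈ range (D k), ‖c k d‖)

theorem sum_nonneg' (k : ℕ) : 0 ≤ ∑ d ∈ range (D k), ‖c k d‖ :=
  sum_nonneg fun _ _ => norm_nonneg _

theorem one_le_W (k : ℕ) : 1 ≤ W D c k := by
  induction k with
  | zero => exact le_rfl
  | succ k ih =>
    have := sum_nonneg' D c k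
    simp only [W]
    nlinarith

theorem W_mono : Monotone (W D c) := by
  refine monotone_nat_of_le_succ fun k => ?_
  have := sum_nonneg' D c k
  have := one_le_W D c k
  simp only [W]
  nlinarith

theorem sum_le_W (k : ℕ) : ∑ d ∈ range (D k), ‖c k d‖ ≤ W D c (k + 1) := by
  have := sum_nonneg' D c k
  have := one_le_W D c k
  simp only [W]
  nlinarith

/-- admissible scales -/
structure Scale (h : ℕ → ℕ) : Prop where
  pos : 1 ≤ h 0
  grow : ∀ k, 5 * h k ≤ h (k + 1)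
  deg : ∀ k, D k ≤ h k
  big : ∀ k, 2 ^ (k + 1) * W D c (k + 1) ^ 2 ≤ 2 ^ h k

theorem exists_scale : ∃ h, Scale D c h := by
  have : ∀ k, ∃ ρ : ℕ, 2 ^ (k + 1) * W D c (k + 1) ^ 2 ≤ 2 ^ ρ := fun k =>
    (pow_unbounded_of_one_lt (2 ^ (k + 1) * W D c (k + 1) ^ 2) (one_lt_two (α := ℝ))).imp
      fun _ h => h.le
  choose ρ hρ using this
  let h : ℕ → ℕ := fun k => Nat.rec (ρ 0 + D 0 + 1) (fun k a => 5 * a + ρ (k + 1) + D (k + 1)) k
  have h0 : h 0 = ρ 0 + D 0 + 1 := rfl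
  have hs : ∀ k, h (k + 1) = 5 * h k + ρ (k + 1) + D (k + 1) := fun k => rfl
  have h1 : ∀ k, ρ k ≤ h k ∧ D k ≤ h k := by
    intro k
    cases k with
    | zero => omega
    | succ k => rw [hs]; omega
  refine ⟨h, by omega, fun k => by rw [hs]; omega, fun k => (h1 k).2, fun k => (hρ k).trans ?_⟩
  exact pow_le_pow_right₀ one_le_two (h1 k).1

variable {D c} {h : ℕ → ℕ}

theorem Scale.one_le (H : Scale D c h) (k : ℕ) : 1 ≤ h k := by
  induction k with
  | zero => exact H.pos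
  | succ k ih => have := H.grow k; omega

theorem Scale.strictMono (H : Scale D c h) : StrictMono h :=
  strictMono_nat_of_lt_succ fun k => by have := H.grow k; have := H.one_le k; omega

theorem Scale.five (H : Scale D c h) {k l : ℕ} (hkl : k < l) : 5 * h k ≤ h l :=
  (H.grow k).trans (H.strictMono.monotone hkl)

theorem Scale.W_le (H : Scale D c h) (k : ℕ) : W D c (k + 1) ≤ 2 ^ h k := by
  have h1 := H.big k
  have h2 := one_le_W D c (k + 1)
  have h3 : (1 : ℝ) ≤ 2 ^ (k + 1) := one_le_pow₀ one_le_two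
  nlinarith [mul_le_mul h3 (le_refl (W D c (k + 1) ^ 2)) (by positivity) (by positivity)]

variable (D c h)

open Classical in
/-- the stages of the recursion -/
noncomputable def Ψ (t : ℕ) : ℕ → ℤ → ℂ
  | 0 => fun n => if n = 0 then 1 else 0
  | k + 1 => fun n => if 2 * (h k : ℤ) ≤ n ∧ n < 5 * h k ∧ (t ≤ h k ∨ 5 * h k ≤ t) then
      ∑ d ∈ range (D k), c k d * Ψ t k (n - 4 * h k + d) else Ψ t k n

/-- the limit sequence -/
noncomputable def ψ (t : ℕ) (n : ℤ) : ℂ := Ψ D c h t n.toNat n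

variable {D c h}

theorem Ψ_stable (H : Scale D c h) (t : ℕ) {k l : ℕ} (hkl : k ≤ l) {n : ℤ} (hn : n < 2 * h k) :
    Ψ D c h t l n = Ψ D c h t k n := by
  induction l, hkl using Nat.le_induction with
  | base => rfl
  | succ l hl ih =>
    have : (h k : ℤ) ≤ h l := by exact_mod_cast H.strictMono.monotone hl
    simp only [Ψ]
    rw [if_neg (by omega), ih]

theorem ψ_eq (H : Scale D c h) (t k : ℕ) {n : ℤ} (hn : n < 2 * h k) :
    ψ D c h t n = Ψ D c h t k n := by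
  have h1 : n < 2 * h n.toNat := by
    have : n.toNat ≤ h n.toNat := H.strictMono.id_le _
    have := H.one_le n.toNat
    omega
  rcases le_total k n.toNat with hk | hk
  · exact Ψ_stable H t hk hn
  · exact (Ψ_stable H t hk h1).symm

theorem Ψ_bound (t k : ℕ) (n : ℤ) : ‖Ψ D c h t k n‖ ≤ W D c k := by
  induction k generalizing n with
  | zero =>
    simp only [Ψ, W]
    split_ifs <;> simp
  | succ k ih =>
    simp only [Ψ]
    split_ifs
    · refine (norm_sum_le _ _).trans ?_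
      have : ∑ d ∈ range (D k), ‖c k d * Ψ D c h t k (n - 4 * h k + d)‖ ≤
          ∑ d ∈ range (D k), ‖c k d‖ * W D c k :=
        sum_le_sum fun d _ => by
          rw [norm_mul]
          exact mul_le_mul_of_nonneg_left (ih _) (norm_nonneg _)
      rw [← sum_mul] at this
      have h2 := one_le_W D c k
      simp only [W]
      nlinarith
    · exact (ih n).trans (W_mono D c (Nat.le_succ k))

theorem Ψ_supp (t k : ℕ) (n : ℤ) (hn : n ≠ 0) (h0 : Ψ D c h t k n ≠ 0) :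
    ∃ l, 2 * (h l : ℤ) ≤ n ∧ n < 5 * h l ∧ (t ≤ h l ∨ 5 * h l ≤ t) := by
  induction k with
  | zero => simp [Ψ, hn] at h0
  | succ k ih =>
    simp only [Ψ] at h0
    split_ifs at h0 with h1
    · exact ⟨k, h1⟩
    · exact ih h0

theorem ψ_supp (t : ℕ) (n : ℤ) (hn : n ≠ 0) (h0 : ψ D c h t n ≠ 0) :
    ∃ l, 2 * (h l : ℤ) ≤ n ∧ n < 5 * h l ∧ (t ≤ h l ∨ 5 * h l ≤ t) :=
  Ψ_supp t _ n hn h0

theorem ψ_zero (t : ℕ) : ψ D c h t 0 = 1 := by simp [ψ, Ψ]

theorem ψ_neg (t : ℕ) {n : ℤ} (hn : n < 0) : ψ D c h t n = 0 := by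
  by_contra h0
  obtain ⟨l, h1, -⟩ := ψ_supp t n hn.ne h0
  omega

theorem ψ_bound (H : Scale D c h) (t k : ℕ) {n : ℤ} (hn : n < 2 * h k) :
    ‖ψ D c h t n‖ ≤ W D c k := by
  rw [ψ_eq H t k hn]
  exact Ψ_bound t k n

theorem ψ_on (H : Scale D c h) (t k : ℕ) {n : ℤ} (h1 : 2 * (h k : ℤ) ≤ n) (h2 : n < 5 * h k)
    (h3 : t ≤ h k ∨ 5 * h k ≤ t) :
    ψ D c h t n = ∑ d ∈ range (D k), c k d * ψ D c h t (n - 4 * h k + d) := by
  have hg : 5 * (h k : ℤ) ≤ h (k + 1) := by exact_mod_cast H.grow k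
  rw [ψ_eq H t (k + 1) (by omega)]
  simp only [Ψ]
  rw [if_pos ⟨h1, h2, h3⟩]
  refine sum_congr rfl fun d hd => ?_
  have : d < h k := (mem_range.1 hd).trans_le (H.deg k)
  rw [ψ_eq H t k (by omega)]

theorem ψ_off (H : Scale D c h) (t k : ℕ) {n : ℤ} (h1 : 2 * (h k : ℤ) ≤ n) (h2 : n < 5 * h k)
    (h3 : ¬ (t ≤ h k ∨ 5 * h k ≤ t)) : ψ D c h t n = 0 := by
  by_contra h0
  have := H.one_le k
  obtain ⟨l, a1, a2, a3⟩ := ψ_supp t n (by omega) h0
  rcases lt_trichotomy k l with hkl | rfl | hkl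
  · have := H.five hkl
    omega
  · exact h3 a3
  · have := H.five hkl
    omega

theorem ψ_le_pow (H : Scale D c h) (t : ℕ) (n j : ℕ) (hj : n ≤ j ∨ n = t + j) :
    ‖ψ D c h t n‖ ≤ 2 ^ j := by
  by_cases h0 : ψ D c h t n = 0
  · rw [h0, norm_zero]; positivity
  by_cases hn : (n : ℤ) = 0
  · rw [hn, ψ_zero, norm_one]
    exact one_le_pow₀ one_le_two
  obtain ⟨l, a1, a2, a3⟩ := ψ_supp t n hn h0
  have hg := H.grow l
  refine (ψ_bound H t (l + 1) (by omega)).trans ((H.W_le l).trans ?_)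
  exact pow_le_pow_right₀ one_le_two (by omega)

theorem far (H : Scale D c h) (t k i : ℕ) (hi : h k ≤ i) :
    ‖ψ D c h t (4 * h k + i) - ∑ d ∈ range (D k), c k d * ψ D c h t (i + d)‖ ≤
      2 ^ i * (1 / 2) ^ k := by
  classical
  have hex : ∃ l, i < h (l + 1) := ⟨i, by have := H.strictMono.id_le (i + 1); simp at this; omega⟩
  set κ := Nat.find hex with hκ
  have h1 : i < h (κ + 1) := Nat.find_spec hex
  have h2 : k ≤ κ := by
    by_contra hlt
    have := H.strictMono.monotone (show κ + 1 ≤ k by omega)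
    omega
  have h3 : h κ ≤ i := by
    rcases Nat.eq_zero_or_pos κ with h0 | h0
    · have : k = 0 := by omega
      rw [h0, ← this]
      exact hi
    · have := Nat.find_min hex (show κ - 1 < κ by omega)
      rw [show κ - 1 + 1 = κ by omega] at this
      omega
  have h4 := H.strictMono.monotone h2
  have h5 := H.grow κ
  have b1 : ‖ψ D c h t (4 * h k + i)‖ ≤ W D c (κ + 1) := ψ_bound H t _ (by omega)
  have b2 : ‖∑ d ∈ range (D k), c k d * ψ D c h t (i + d)‖ ≤ W D c (κ + 1) * W D c (κ + 1) := by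
    refine (norm_sum_le _ _).trans ?_
    have : ∑ d ∈ range (D k), ‖c k d * ψ D c h t (i + d)‖ ≤
        ∑ d ∈ range (D k), ‖c k d‖ * W D c (κ + 1) :=
      sum_le_sum fun d hd => by
        rw [norm_mul]
        have : d < h k := (mem_range.1 hd).trans_le (H.deg k)
        exact mul_le_mul_of_nonneg_left (ψ_bound H t _ (by omega)) (norm_nonneg _)
    rw [← sum_mul] at this
    refine this.trans (mul_le_mul_of_nonneg_right ((sum_le_W D c k).trans
      (W_mono D c (by omega))) (zero_le_one.trans (one_le_W D c _)))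
  have b3 := H.big κ
  have b4 := one_le_W D c (κ + 1)
  have b5 : (2 : ℝ) ^ h κ ≤ 2 ^ i := pow_le_pow_right₀ one_le_two h3
  have b6 : (2 : ℝ) ^ (k + 1) ≤ 2 ^ (κ + 1) := pow_le_pow_right₀ one_le_two (by omega)
  refine (norm_sub_le _ _).trans ?_
  have b7 : (2 : ℝ) ^ (k + 1) * W D c (κ + 1) ^ 2 ≤ 2 ^ i :=
    (mul_le_mul_of_nonneg_right b6 (by positivity)).trans (b3.trans b5)
  rw [one_div, inv_pow, ← div_eq_mul_inv, le_div_iff₀ (by positivity)]
  rw [pow_succ] at b7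
  have b8 : (0 : ℝ) < 2 ^ k := by positivity
  nlinarith [mul_le_mul_of_nonneg_left (show W D c (κ + 1) ≤ W D c (κ + 1) * W D c (κ + 1) by
    nlinarith) b8.le, mul_le_mul_of_nonneg_left b1 b8.le, mul_le_mul_of_nonneg_left b2 b8.le]

end Pool.Agent.H756Z.Hyp
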