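import Mathlib
import Pool.Agent.H756Z.HypA

set_option autoImplicit false

open Finset

namespace Pool.Agent.H756Z.Hyp

variable {D : ℕ → ℕ} {c : ℕ → ℕ → ℂ} {h : ℕ → ℕ}

open Classical in
/-- the position to be protected in row `m` -/
noncomputable def tt (h : ℕ → ℕ) (m : ℕ) : ℕ :=
  if hh : ∃ l, 2 * h l < m ∧ m ≤ 4 * h l then 4 * h hh.choose - m else 0

theorem uniq1 (H : Scale D c h) {s k l : ℕ} (hk : 2 * h k < s ∧ s ≤ 4 * h k)
    (hl : 2 * h l < s ∧ s ≤ 4 * h l) : k = l := by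
  rcases lt_trichotomy k l with hkl | rfl | hkl
  · have := H.five hkl
    omega
  · rfl
  · have := H.five hkl
    omega

theorem uniq2 (H : Scale D c h) {t k l : ℕ} (hk : ¬ (t ≤ h k ∨ 5 * h k ≤ t))
    (hl : ¬ (t ≤ h l ∨ 5 * h l ≤ t)) : k = l := by
  rcases lt_trichotomy k l with hkl | rfl | hkl
  · have := H.five hkl
    omega
  · rfl
  · have := H.five hkl
    omega

theorem tt_eq (H : Scale D c h) {m k : ℕ} (hk : 2 * h k < m ∧ m ≤ 4 * h k) :
    tt h m = 4 * h k - m := by
  have hh : ∃ l, 2 * h l < m ∧ m ≤ 4 * h l := ⟨k, hk⟩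
  rw [tt, dif_pos hh, uniq1 H hh.choose_spec hk]

/-- the weights -/
noncomputable def θ (m j : ℕ) : ℝ := (1 / 2) ^ (if j < m then j else j - m)

theorem θ_pos (m j : ℕ) : 0 < θ m j := by unfold θ; positivity

theorem θ_ratio (m j : ℕ) : θ m j / θ m (j + 1) ≤ 2 := by
  rw [div_le_iff₀ (θ_pos _ _)]
  unfold θ
  by_cases h1 : j + 1 < m
  · rw [if_pos h1, if_pos (by omega), pow_succ]
    linarith
  · by_cases h2 : j < m
    · rw [if_neg h1, if_pos h2, show j + 1 - m = 0 by omega, pow_zero]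
      have : ((1 : ℝ) / 2) ^ j ≤ 1 := pow_le_one₀ (by norm_num) (by norm_num)
      linarith
    · rw [if_neg h1, if_neg h2, show j + 1 - m = j - m + 1 by omega, pow_succ]
      linarith

theorem θ_zero (m : ℕ) : θ m 0 = 1 := by
  unfold θ
  split_ifs <;> simp

theorem θ_diag (m : ℕ) : θ m m = 1 := by simp [θ]

variable (D c h) in
/-- the rows -/
noncomputable def φ (m n : ℕ) : ℂ := ψ D c h (tt h m) ((n : ℤ) - m)

theorem φ_diag (m : ℕ) : φ D c h m m = 1 := by simp [φ, ψ_zero]

theorem half_pow_mul (i : ℕ) : ((1 : ℝ) / 2) ^ i * 2 ^ i = 1 := by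
  rw [← mul_pow]
  norm_num

theorem x_bound (H : Scale D c h) (m j : ℕ) : θ m j * ‖φ D c h m j‖ ≤ 1 := by
  unfold θ φ
  by_cases h1 : j < m
  · rw [ψ_neg _ (by omega)]
    simp
  · rw [if_neg h1, show (j : ℤ) - m = ((j - m : ℕ) : ℤ) by omega]
    have := ψ_le_pow H (tt h m) (j - m) (j - m) (Or.inl le_rfl)
    exact (mul_le_mul_of_nonneg_left this (by positivity)).trans (half_pow_mul _).le

open Classical in
theorem coord (H : Scale D c h) (m j k : ℕ) :
    θ m j * ‖φ D c h m (j + 4 * h k) - ∑ d ∈ range (D k), c k d * φ D c h m (j + d)‖ ≤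
      (1 / 2) ^ k + (if ¬ (tt h m ≤ h k ∨ 5 * h k ≤ tt h m) then
        θ m j * ‖∑ d ∈ range (D k), c k d * φ D c h m (j + d)‖ else 0) +
      (if 2 * h k < m - j ∧ m - j ≤ 4 * h k then 1 else 0) := by
  have p1 : (0 : ℝ) ≤ (1 / 2) ^ k := by positivity
  have p2 : (0 : ℝ) ≤ (if ¬ (tt h m ≤ h k ∨ 5 * h k ≤ tt h m) then
        θ m j * ‖∑ d ∈ range (D k), c k d * φ D c h m (j + d)‖ else 0) := by
    split_ifs
    · exact le_rfl
    · exact mul_nonneg (θ_pos _ _).le (norm_nonneg _)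
  have p3 : (0 : ℝ) ≤ (if 2 * h k < m - j ∧ m - j ≤ 4 * h k then 1 else 0) := by
    split_ifs <;> norm_num
  by_cases h1 : h k + m ≤ j
  · have := far H (tt h m) k (j - m) (by omega)
    have e1 : φ D c h m (j + 4 * h k) = ψ D c h (tt h m) (4 * h k + (j - m : ℕ)) := by
      unfold φ
      congr 1
      omega
    have e2 : ∀ d, φ D c h m (j + d) = ψ D c h (tt h m) ((j - m : ℕ) + d) := by
      intro d
      unfold φ
      congr 1
      omega
    have e3 : θ m j = (1 / 2) ^ (j - m) := by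
      unfold θ
      rw [if_neg (by omega)]
    have : θ m j * ‖φ D c h m (j + 4 * h k) - ∑ d ∈ range (D k), c k d * φ D c h m (j + d)‖ ≤
        (1 / 2) ^ k := by
      simp only [e1, e2, e3]
      refine (mul_le_mul_of_nonneg_left this (by positivity)).trans ?_
      rw [← mul_assoc, half_pow_mul, one_mul]
    linarith
  by_cases h2 : m ≤ j + 2 * h k
  · by_cases h3 : tt h m ≤ h k ∨ 5 * h k ≤ tt h m
    · have := ψ_on H (tt h m) k (n := ((j + 4 * h k : ℕ) : ℤ) - m) (by omega) (by omega) h3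
      have e1 : φ D c h m (j + 4 * h k) = ∑ d ∈ range (D k), c k d * φ D c h m (j + d) := by
        unfold φ
        rw [this]
        refine sum_congr rfl fun d _ => ?_
        congr 2
        omega
      rw [e1, sub_self, norm_zero, mul_zero]
      linarith
    · have : φ D c h m (j + 4 * h k) = 0 := ψ_off H (tt h m) k (by omega) (by omega) h3
      rw [this, zero_sub, norm_neg, if_pos h3]
      linarith
  · have e1 : ∑ d ∈ range (D k), c k d * φ D c h m (j + d) = 0 := by
      refine sum_eq_zero fun d hd => ?_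
      have : d < h k := (mem_range.1 hd).trans_le (H.deg k)
      have : φ D c h m (j + d) = 0 := ψ_neg _ (by omega)
      rw [this, mul_zero]
    by_cases h3 : m ≤ j + 4 * h k
    · have e2 : φ D c h m (j + 4 * h k) = ψ D c h (tt h m) ((j + 4 * h k - m : ℕ) : ℤ) := by
        unfold φ
        congr 1
        omega
      have e3 : θ m j = (1 / 2) ^ j := by
        unfold θ
        rw [if_pos (by omega)]
      have b1 : ‖φ D c h m (j + 4 * h k)‖ ≤ 2 ^ j := by
        rw [e2]
        refine ψ_le_pow H _ _ _ ?_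
        by_cases h4 : m ≤ 4 * h k
        · right
          rw [tt_eq H (k := k) ⟨by omega, h4⟩]
          omega
        · left
          omega
      have b2 : θ m j * ‖φ D c h m (j + 4 * h k)‖ ≤ 1 := by
        rw [e3]
        exact (mul_le_mul_of_nonneg_left b1 (by positivity)).trans (half_pow_mul _).le
      have e4 : (if 2 * h k < m - j ∧ m - j ≤ 4 * h k then (1 : ℝ) else 0) = 1 :=
        if_pos (by omega)
      rw [e4]
      nth_rewrite 1 [e1]
      rw [sub_zero]
      linarith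
    · have : φ D c h m (j + 4 * h k) = 0 := ψ_neg _ (by omega)
      rw [this]
      nth_rewrite 1 [e1]
      rw [sub_zero, norm_zero, mul_zero]
      linarith

theorem sum_ite_le {F : Finset ℕ} {p : ℕ → Prop} [DecidablePred p]
    (hp : ∀ k l, p k → p l → k = l) {a : ℕ → ℝ} {M : ℝ} (hM : 0 ≤ M) (ha : ∀ k ∈ F, a k ≤ M) :
    ∑ k ∈ F, (if p k then a k else 0) ≤ M := by
  rw [← sum_filter]
  have h1 : (F.filter p).card ≤ 1 :=
    card_le_one.2 fun k hk l hl => hp k l (mem_filter.1 hk).2 (mem_filter.1 hl).2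
  have h2 := sum_le_card_nsmul (F.filter p) a M fun k hk => ha k (mem_filter.1 hk).1
  rw [nsmul_eq_mul] at h2
  have h3 : ((F.filter p).card : ℝ) ≤ 1 := by exact_mod_cast h1
  nlinarith

theorem coord_sum (H : Scale D c h) (m j : ℕ) (F : Finset ℕ) {M : ℝ} (hM : 0 ≤ M)
    (hF : ∀ k ∈ F, θ m j * ‖∑ d ∈ range (D k), c k d * φ D c h m (j + d)‖ ≤ M) :
    ∑ k ∈ F, θ m j *
      ‖φ D c h m (j + 4 * h k) - ∑ d ∈ range (D k), c k d * φ D c h m (j + d)‖ ≤ 3 + M := by
  classical
  refine (sum_le_sum fun k _ => coord H m j k).trans ?_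
  rw [sum_add_distrib, sum_add_distrib]
  have h1 : ∑ k ∈ F, ((1 : ℝ) / 2) ^ k ≤ 2 :=
    (summable_geometric_two.sum_le_tsum F fun _ _ => by positivity).trans tsum_geometric_two.le
  have h2 := sum_ite_le (F := F) (p := fun k => ¬ (tt h m ≤ h k ∨ 5 * h k ≤ tt h m))
    (fun k l hk hl => uniq2 H hk hl) hM hF
  have h3 := sum_ite_le (F := F) (p := fun k => 2 * h k < m - j ∧ m - j ≤ 4 * h k)
    (fun k l hk hl => uniq1 H hk hl) (a := fun _ => (1 : ℝ)) zero_le_one fun _ _ => le_rfl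
  linarith

end Pool.Agent.H756Z.Hyp
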