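import Mathlib

set_option autoImplicit false

open Filter Topology

namespace Pool.Agent.H756Z.Hyp

/-- `T` is hypercyclic: some orbit `{T^n x : n ∈ ℕ}` is norm dense. -/
def Hypercyclic {B : Type} [NormedAddCommGroup B] [NormedSpace ℂ B] (T : B →L[ℂ] B) : Prop :=
  ∃ x : B, Dense (Set.range fun n : ℕ => (fun v => T v)^[n] x)

/-- `T` is weakly 1-sequentially hypercyclic (with strictly increasing exponents): there is a
vector `x` such that every `y` is the weak limit of a subsequence of the orbit of `x`. -/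
def WeaklyOneSeqHypercyclic {B : Type} [NormedAddCommGroup B] [NormedSpace ℂ B]
    (T : B →L[ℂ] B) : Prop :=
  ∃ x : B, ∀ y : B, ∃ n : ℕ → ℕ, StrictMono n ∧
    ∀ f : B →L[ℂ] ℂ, Tendsto (fun k => f ((fun v => T v)^[n k] x)) atTop (𝓝 (f y))

end Pool.Agent.H756Z.Hyp
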