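import Mathlib
import Pool.Agent.H756Z.HypB
import Pool.Agent.H756Z.HypDefs

set_option autoImplicit false

open Finset Filter Topology
open scoped BoundedContinuousFunction

namespace Pool.Agent.H756Z.Hyp

theorem weak_null {B : Type} [NormedAddCommGroup B] [NormedSpace ℂ B] (g : ℕ → B) (C : ℝ)
    (hg : ∀ (F : Finset ℕ) (ε : ℕ → ℂ), (∀ n, ‖ε n‖ = 1) → ‖∑ n ∈ F, ε n • g n‖ ≤ C)
    (f : B →L[ℂ] ℂ) : Tendsto (fun n => f (g n)) atTop (𝓝 0) := by
  choose ε hε using fun n => Complex.exists_norm_eq_mul_self (f (g n))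
  have hs : Summable fun n => ‖f (g n)‖ := by
    refine summable_of_sum_le (c := ‖f‖ * C) (fun n => norm_nonneg _) fun F => ?_
    have h1 : ((∑ n ∈ F, ‖f (g n)‖ : ℝ) : ℂ) = f (∑ n ∈ F, ε n • g n) := by
      rw [map_sum, Complex.ofReal_sum]
      refine sum_congr rfl fun n _ => ?_
      rw [map_smul, smul_eq_mul, (hε n).2]
    have h2 : ∑ n ∈ F, ‖f (g n)‖ = ‖f (∑ n ∈ F, ε n • g n)‖ := by
      rw [← h1, Complex.norm_real, Real.norm_of_nonneg (sum_nonneg fun _ _ => norm_nonneg _)]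
    rw [h2]
    exact (f.le_opNorm _).trans
      (mul_le_mul_of_nonneg_left (hg F ε fun n => (hε n).1) (norm_nonneg _))
  exact tendsto_zero_iff_norm_tendsto_zero.2 hs.tendsto_atTop_zero

/-- the ambient space -/
abbrev E : Type := ℕ × ℕ →ᵇ ℂ

theorem shift_bound (f : E) (p : ℕ × ℕ) :
    ‖((θ p.1 p.2 / θ p.1 (p.2 + 1) : ℝ) : ℂ) * f (p.1, p.2 + 1)‖ ≤ 2 * ‖f‖ := by
  rw [norm_mul, Complex.norm_real,
    Real.norm_of_nonneg (div_nonneg (θ_pos _ _).le (θ_pos _ _).le)]
  exact mul_le_mul (θ_ratio _ _) (f.norm_coe_le_norm _) (norm_nonneg _) zero_le_two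

/-- the weighted shift, as a linear map -/
noncomputable def Tl : E →ₗ[ℂ] E where
  toFun f := BoundedContinuousFunction.ofNormedAddCommGroupDiscrete
    (fun p : ℕ × ℕ => ((θ p.1 p.2 / θ p.1 (p.2 + 1) : ℝ) : ℂ) * f (p.1, p.2 + 1)) (2 * ‖f‖)
    (shift_bound f)
  map_add' f g := by
    ext p
    simp [mul_add]
  map_smul' a f := by
    ext p
    simp
    ring

theorem Tl_apply (f : E) (m j : ℕ) :
    Tl f (m, j) = ((θ m j / θ m (j + 1) : ℝ) : ℂ) * f (m, j + 1) := rfl

/-- the weighted shift -/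
noncomputable def T : E →L[ℂ] E :=
  Tl.mkContinuous 2 fun f =>
    (BoundedContinuousFunction.norm_le (by positivity)).2 fun p => shift_bound f p

theorem T_apply (f : E) (m j : ℕ) :
    T f (m, j) = ((θ m j / θ m (j + 1) : ℝ) : ℂ) * f (m, j + 1) := rfl

theorem T_iter (n : ℕ) (f : E) (m j : ℕ) :
    ((fun v => T v)^[n] f) (m, j) = ((θ m j / θ m (j + n) : ℝ) : ℂ) * f (m, j + n) := by
  induction n generalizing j with
  | zero => simp [(θ_pos m j).ne']
  | succ n ih =>
    rw [Function.iterate_succ_apply', T_apply, ih, ← mul_assoc, ← Complex.ofReal_mul,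
      show j + 1 + n = j + (n + 1) by omega]
    congr 2
    have := (θ_pos m (j + 1)).ne'
    field_simp

variable {D : ℕ → ℕ} {c : ℕ → ℕ → ℂ} {h : ℕ → ℕ}

/-- the vector with the special orbit -/
noncomputable def x0 (H : Scale D c h) : E :=
  BoundedContinuousFunction.ofNormedAddCommGroupDiscrete
    (fun p : ℕ × ℕ => ((θ p.1 p.2 : ℝ) : ℂ) * φ D c h p.1 p.2) 1 fun p => by
      rw [norm_mul, Complex.norm_real, Real.norm_of_nonneg (θ_pos _ _).le]
      exact x_bound H _ _

theorem x0_apply (H : Scale D c h) (m j : ℕ) :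
    x0 H (m, j) = ((θ m j : ℝ) : ℂ) * φ D c h m j := rfl

/-- the orbit -/
noncomputable def orb (H : Scale D c h) (n : ℕ) : E := (fun v => T v)^[n] (x0 H)

theorem orb_apply (H : Scale D c h) (n m j : ℕ) :
    orb H n (m, j) = ((θ m j : ℝ) : ℂ) * φ D c h m (j + n) := by
  rw [orb, T_iter, x0_apply, ← mul_assoc, ← Complex.ofReal_mul,
    div_mul_cancel₀ _ (θ_pos _ _).ne']

theorem orb_succ (H : Scale D c h) (n : ℕ) : orb H (n + 1) = T (orb H n) :=
  Function.iterate_succ_apply' _ _ _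

/-- the polynomials -/
noncomputable def P (H : Scale D c h) (k : ℕ) : E := ∑ d ∈ range (D k), c k d • orb H d

theorem P_apply (H : Scale D c h) (k m j : ℕ) :
    P H k (m, j) = ((θ m j : ℝ) : ℂ) * ∑ d ∈ range (D k), c k d * φ D c h m (j + d) := by
  rw [P, BoundedContinuousFunction.sum_apply, mul_sum]
  refine sum_congr rfl fun d _ => ?_
  rw [BoundedContinuousFunction.smul_apply, orb_apply, smul_eq_mul]
  ring

theorem key (H : Scale D c h) {k : ℕ → ℕ} (hk : Function.Injective k) {M : ℝ} (hM : 0 ≤ M)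
    (hP : ∀ n, ‖P H (k n)‖ ≤ M) (F : Finset ℕ) (ε : ℕ → ℂ) (hε : ∀ n, ‖ε n‖ = 1) :
    ‖∑ n ∈ F, ε n • (orb H (4 * h (k n)) - P H (k n))‖ ≤ 3 + M := by
  refine (BoundedContinuousFunction.norm_le (by positivity)).2 fun p => ?_
  obtain ⟨m, j⟩ := p
  rw [BoundedContinuousFunction.sum_apply]
  refine (norm_sum_le _ _).trans ?_
  have := coord_sum H m j (F.map ⟨k, hk⟩) hM (by
    intro l hl
    obtain ⟨n, -, rfl⟩ := mem_map.1 hl
    refine le_trans (le_of_eq ?_) (((P H (k n)).norm_coe_le_norm (m, j)).trans (hP n))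
    rw [P_apply, norm_mul, Complex.norm_real, Real.norm_of_nonneg (θ_pos _ _).le]
    rfl)
  rw [sum_map] at this
  refine le_trans (le_of_eq (sum_congr rfl fun n _ => ?_)) this
  rw [BoundedContinuousFunction.smul_apply, norm_smul, hε, one_mul,
    BoundedContinuousFunction.sub_apply, orb_apply, P_apply, ← mul_sub, norm_mul,
    Complex.norm_real, Real.norm_of_nonneg (θ_pos _ _).le]
  rfl

/-- the space -/
noncomputable def B (H : Scale D c h) : Submodule ℂ E :=
  (Submodule.span ℂ (Set.range (orb H))).topologicalClosure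

theorem orb_mem (H : Scale D c h) (n : ℕ) : orb H n ∈ B H :=
  Submodule.le_topologicalClosure _ (Submodule.subset_span ⟨n, rfl⟩)

theorem P_mem (H : Scale D c h) (k : ℕ) : P H k ∈ B H :=
  Submodule.sum_mem _ fun _ _ => Submodule.smul_mem _ _ (orb_mem H _)

theorem T_mem (H : Scale D c h) {v : E} (hv : v ∈ B H) : T v ∈ B H := by
  have : B H ≤ (B H).comap (T : E →ₗ[ℂ] E) := by
    refine Submodule.topologicalClosure_minimal _ (Submodule.span_le.2 ?_) ?_
    · rintro _ ⟨n, rfl⟩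
      have := orb_mem H (n + 1)
      rw [orb_succ] at this
      exact this
    · exact (Submodule.isClosed_topologicalClosure _).preimage T.continuous
  exact this hv

instance (H : Scale D c h) : CompleteSpace (B H) :=
  (Submodule.isClosed_topologicalClosure _).completeSpace_coe

/-- the operator -/
noncomputable def S (H : Scale D c h) : B H →L[ℂ] B H :=
  (T.comp (B H).subtypeL).codRestrict (B H) fun v => T_mem H v.2

theorem S_iter (H : Scale D c h) (n : ℕ) (v : B H) :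
    (((fun v => S H v)^[n] v : B H) : E) = (fun v => T v)^[n] v.1 := by
  induction n with
  | zero => rfl
  | succ n ih =>
    rw [Function.iterate_succ_apply', Function.iterate_succ_apply', ← ih]
    rfl

theorem not_hc (H : Scale D c h) : ¬ Hypercyclic (S H) := by
  rintro ⟨z, hz⟩
  let x : B H := ⟨x0 H, orb_mem H 0⟩
  have hx : ∀ m, x0 H (m, m) = 1 := fun m => by simp [x0_apply, θ_diag, φ_diag]
  have : Nontrivial (B H) := by
    refine ⟨x, 0, fun h0 => ?_⟩
    have h1 : x0 H = 0 := congrArg Subtype.val h0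
    have := hx 0
    simp [h1] at this
  have := fun v : B H => Module.punctured_nhds_neBot ℂ (B H) v
  obtain ⟨_, h1, n, rfl⟩ := hz.inter_open_nonempty _ Metric.isOpen_ball
    (Metric.nonempty_ball.2 one_half_pos : (Metric.ball x (1 / 2)).Nonempty)
  have hfin : ((fun i : ℕ => (fun v => S H v)^[i] z) '' Set.Iio n).Finite :=
    (Set.finite_Iio n).image _
  obtain ⟨_, h2, ⟨i, rfl⟩, h3⟩ := (hz.sdiff_finite hfin).inter_open_nonempty _ Metric.isOpen_ball
    (Metric.nonempty_ball.2 one_half_pos : (Metric.ball (0 : B H) (1 / 2)).Nonempty)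
  have hi : n ≤ i := not_lt.1 fun hi => h3 ⟨i, hi, rfl⟩
  obtain ⟨m, rfl⟩ := Nat.exists_eq_add_of_le' hi
  simp only [Function.iterate_add_apply] at h2
  beta_reduce at h1
  generalize (fun v => S H v)^[n] z = w at h1 h2
  rw [mem_ball_iff_norm] at h1
  rw [mem_ball_zero_iff] at h2
  have h4 : ‖w.1 - x0 H‖ < 1 / 2 := h1
  have h5 : ‖(fun v => T v)^[m] w.1‖ < 1 / 2 := by
    rw [← S_iter]
    exact h2
  have h6 := ((w.1 - x0 H).norm_coe_le_norm (m, m)).trans_lt h4
  have h7 := (((fun v => T v)^[m] w.1).norm_coe_le_norm (m, 0)).trans_lt h5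
  rw [T_iter, zero_add, θ_zero, θ_diag] at h7
  rw [BoundedContinuousFunction.sub_apply, hx] at h6
  have h8 := norm_sub_le (w.1 (m, m)) (w.1 (m, m) - 1)
  simp only [div_one, Complex.ofReal_one, one_mul, sub_sub_cancel, norm_one] at h7 h8
  linarith

theorem weak_hc (H : Scale D c h)
    (hd : ∀ (n : ℕ) (U : Set (ℕ → ℂ)), IsOpen U → U.Nonempty → ∃ᶠ k in atTop, D k = n ∧ c k ∈ U) :
    WeaklyOneSeqHypercyclic (S H) := by
  refine ⟨⟨x0 H, orb_mem H 0⟩, fun y => ?_⟩
  have h1 : ∀ n : ℕ, ∃ᶠ k in atTop, ‖P H k - y.1‖ < 1 / ((n : ℝ) + 1) := by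
    intro n
    obtain ⟨v, hv, hv'⟩ := Metric.mem_closure_iff.1
      (show y.1 ∈ closure (Submodule.span ℂ (Set.range (orb H)) : Set E) from y.2)
      (1 / ((n : ℝ) + 1)) (by positivity)
    obtain ⟨a, rfl⟩ := Finsupp.mem_span_range_iff_exists_finsupp.1 hv
    obtain ⟨N, hN⟩ := a.support.exists_nat_subset_range
    rw [Finsupp.sum_of_support_subset a hN _ (by simp), dist_comm, dist_eq_norm] at hv'
    have hU : IsOpen {b : ℕ → ℂ | ‖∑ d ∈ range N, b d • orb H d - y.1‖ < 1 / ((n : ℝ) + 1)} :=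
      isOpen_lt (by fun_prop) continuous_const
    refine (hd N _ hU ⟨a, hv'⟩).mono fun k hk => ?_
    rw [P, hk.1]
    exact hk.2
  obtain ⟨k, hk, hk'⟩ := extraction_forall_of_frequently h1
  refine ⟨fun n => 4 * h (k n), fun a b hab => by
    have := H.strictMono (hk hab)
    dsimp only
    omega, fun f => ?_⟩
  have hP : ∀ n, ‖P H (k n)‖ ≤ ‖y.1‖ + 1 := by
    intro n
    have h2 := hk' n
    have h3 : 1 / ((n : ℝ) + 1) ≤ 1 := by
      rw [div_le_one (by positivity)]
      have : (0 : ℝ) ≤ n := n.cast_nonneg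
      linarith
    have h4 := norm_sub_norm_le (P H (k n)) y.1
    linarith
  let p : ℕ → B H := fun n => ⟨P H (k n), P_mem H _⟩
  let o : ℕ → B H := fun n => ⟨orb H (4 * h (k n)), orb_mem H _⟩
  have h2 := weak_null (fun n => o n - p n) (3 + (‖y.1‖ + 1)) (fun F ε hε => by
    have := key H hk.injective (by positivity) hP F ε hε
    rw [Submodule.coe_norm]
    simpa using this) f
  have h3 : Tendsto p atTop (𝓝 y) := by
    rw [tendsto_iff_norm_sub_tendsto_zero]
    exact squeeze_zero (fun _ => norm_nonneg _) (fun n => (hk' n).le)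
      tendsto_one_div_add_atTop_nhds_zero_nat
  have h4 := h2.add ((f.continuous.tendsto y).comp h3)
  rw [zero_add] at h4
  refine h4.congr fun n => ?_
  have : (fun v => S H v)^[4 * h (k n)] ⟨x0 H, orb_mem H 0⟩ = o n :=
    Subtype.ext (S_iter H _ _)
  rw [this]
  simp

theorem exists_data : ∃ (D : ℕ → ℕ) (c : ℕ → ℕ → ℂ),
    ∀ (n : ℕ) (U : Set (ℕ → ℂ)), IsOpen U → U.Nonempty → ∃ᶠ k in atTop, D k = n ∧ c k ∈ U := by
  refine ⟨fun k => (Nat.unpair k).1,
    fun k => TopologicalSpace.denseSeq (ℕ → ℂ) (Nat.unpair (Nat.unpair k).2).1, ?_⟩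
  intro n U hU hne
  obtain ⟨i, hi⟩ := (TopologicalSpace.denseRange_denseSeq (ℕ → ℂ)).exists_mem_open hU hne
  refine frequently_atTop.2 fun N => ⟨Nat.pair n (Nat.pair i N),
    (Nat.right_le_pair i N).trans (Nat.right_le_pair _ _), ?_⟩
  simp [hi]

theorem main : ∃ (B : Type) (_ : NormedAddCommGroup B) (_ : NormedSpace ℂ B)
    (_ : CompleteSpace B) (T : B →L[ℂ] B), WeaklyOneSeqHypercyclic T ∧ ¬ Hypercyclic T := by
  obtain ⟨D, c, hd⟩ := exists_data
  obtain ⟨h, H⟩ := exists_scale D c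
  exact ⟨B H, inferInstance, inferInstance, inferInstance, S H, weak_hc H hd, not_hc H⟩

end Pool.Agent.H756Z.Hyp
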