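import Mathlib

set_option autoImplicit false

open Filter Topology

namespace Pool.Agent.H756Z.HypS

/-- The orbit `O(T, x) = {T^n x : n ≥ 0}`. -/
def orbit {𝕜 : Type} [RCLike 𝕜] {B : Type} [NormedAddCommGroup B] [NormedSpace 𝕜 B]
    (T : B →L[𝕜] B) (x : B) : Set B :=
  Set.range fun n : ℕ => (fun v => T v)^[n] x

/-- `T` is hypercyclic: some orbit is norm dense. -/
def Hypercyclic {𝕜 : Type} [RCLike 𝕜] {B : Type} [NormedAddCommGroup B] [NormedSpace 𝕜 B]
    (T : B →L[𝕜] B) : Prop :=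
  ∃ x : B, Dense (orbit T x)

/-- `M` is weakly sequentially closed: it contains the weak limit of every weakly convergent
sequence of its elements. -/
def WeakSeqClosed (𝕜 : Type) [RCLike 𝕜] {B : Type} [NormedAddCommGroup B] [NormedSpace 𝕜 B]
    (M : Set B) : Prop :=
  ∀ (u : ℕ → B) (y : B), (∀ k, u k ∈ M) →
    (∀ f : B →L[𝕜] 𝕜, Tendsto (fun k => f (u k)) atTop (𝓝 (f y))) → y ∈ M

/-- `T` is weakly sequentially hypercyclic: for some `x`, the only weakly sequentially closed set
containing the orbit of `x` is the whole space. -/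
def WeaklySeqHypercyclic {𝕜 : Type} [RCLike 𝕜] {B : Type} [NormedAddCommGroup B]
    [NormedSpace 𝕜 B] (T : B →L[𝕜] B) : Prop :=
  ∃ x : B, ∀ M : Set B, WeakSeqClosed 𝕜 M → orbit T x ⊆ M → M = Set.univ

end Pool.Agent.H756Z.HypS
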