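import Mathlib
import Pool.Agent.H756Z.HypC
import Pool.Agent.H756Z.HypSDefs

set_option autoImplicit false

open Filter Topology

namespace Pool.Agent.H756Z.HypS

theorem complex_case : ∃ (B : Type) (_ : NormedAddCommGroup B) (_ : NormedSpace ℂ B)
    (_ : CompleteSpace B) (T : B →L[ℂ] B), WeaklySeqHypercyclic T ∧ ¬ Hypercyclic T := by
  obtain ⟨B, i1, i2, i3, T, ⟨x, hx⟩, h2⟩ := Hyp.main
  refine ⟨B, i1, i2, i3, T, ⟨x, fun M hM hO => Set.eq_univ_of_forall fun y => ?_⟩, h2⟩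
  obtain ⟨n, -, hn⟩ := hx y
  exact hM _ y (fun k => hO ⟨n k, rfl⟩) hn

theorem real_case : ∃ (B : Type) (_ : NormedAddCommGroup B) (_ : NormedSpace ℝ B)
    (_ : CompleteSpace B) (T : B →L[ℝ] B), WeaklySeqHypercyclic T ∧ ¬ Hypercyclic T := by
  obtain ⟨B, i1, i2, i3, T, ⟨x, hx⟩, h2⟩ := Hyp.main
  refine ⟨B, i1, NormedSpace.complexToReal, i3, T.restrictScalars ℝ,
    ⟨x, fun M hM hO => Set.eq_univ_of_forall fun y => ?_⟩, h2⟩
  obtain ⟨n, -, hn⟩ := hx y
  refine hM _ y (fun k => hO ⟨n k, rfl⟩) fun f => ?_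
  have := (RCLike.continuous_re.tendsto _).comp (hn (StrongDual.extendRCLike (𝕜 := ℂ) f))
  simp only [Function.comp_def, StrongDual.re_extendRCLike_apply] at this
  exact this

end Pool.Agent.H756Z.HypS
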